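import Mathlib

set_option autoImplicit false

/-!
# Oriented cycles in digraphs of large minimum out-degree: basic notions

Paths, letters (a directed path replacing one arc of the oriented cycle) and trajectories
(the subdivision of a segment of the oriented cycle).
-/

namespace Pool.Agent.J6H69.Mader

open Relation Finset
open scoped Classical

variable {V : Type*}

/-- A reachability relation is witnessed by a simple path. -/
lemma exists_simple {ρ : V → V → Prop} {a b : V} (h : ReflTransGen ρ a b) :
    ∃ (n : ℕ) (q : ℕ → V), q 0 = a ∧ q n = b ∧ (∀ i < n, ρ (q i) (q (i + 1))) ∧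
      (∀ i j, i ≤ n → j ≤ n → q i = q j → i = j) := by
  have hex : ∃ (n : ℕ), ∃ (q : ℕ → V), q 0 = a ∧ q n = b ∧ (∀ i < n, ρ (q i) (q (i + 1))) := by
    induction h with
    | refl => exact ⟨0, fun _ => a, rfl, rfl, by simp⟩
    | @tail b c hab hbc ih =>
      obtain ⟨n, q, h0, hn, hs⟩ := ih
      refine ⟨n + 1, fun i => if i ≤ n then q i else c, ?_, ?_, ?_⟩
      · simp [h0]
      · simp
      · intro i hi
        rcases Nat.lt_succ_iff_lt_or_eq.mp hi with h1 | h1
        · have e1 : i ≤ n := h1.le
          have e2 : i + 1 ≤ n := h1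
          simp only [e1, e2, if_true]
          exact hs i h1
        · subst h1
          have e2 : ¬ (i + 1 ≤ i) := by omega
          simp only [le_refl, e2, if_true, if_false]
          rw [hn]; exact hbc
  classical
  obtain ⟨q, h0, hn, hs⟩ := Nat.find_spec hex
  refine ⟨Nat.find hex, q, h0, hn, hs, ?_⟩
  have key : ∀ i j, i < j → j ≤ Nat.find hex → q i = q j → False := by
    intro i j hij hj he
    have hlt : Nat.find hex - (j - i) < Nat.find hex := by omega
    refine Nat.find_min hex hlt ⟨fun k => if k ≤ i then q k else q (k + (j - i)), ?_, ?_, ?_⟩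
    · simp [h0]
    · by_cases hc : Nat.find hex - (j - i) ≤ i
      · have : j = Nat.find hex := by omega
        have h2 : Nat.find hex - (j - i) = i := by omega
        simp only [h2, le_refl, if_true]
        rw [he, this, hn]
      · simp only [hc, if_false]
        have : Nat.find hex - (j - i) + (j - i) = Nat.find hex := by omega
        rw [this, hn]
    · intro k hk
      rcases lt_trichotomy k i with h1 | h1 | h1
      · have e1 : k ≤ i := h1.le
        have e2 : k + 1 ≤ i := h1
        simp only [e1, e2, if_true]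
        exact hs k (by omega)
      · subst h1
        have e2 : ¬ (k + 1 ≤ k) := by omega
        simp only [le_refl, e2, if_true, if_false]
        rw [he]
        have : k + 1 + (j - k) = j + 1 := by omega
        rw [this]
        exact hs j (by omega)
      · have e1 : ¬ (k ≤ i) := by omega
        have e2 : ¬ (k + 1 ≤ i) := by omega
        simp only [e1, e2, if_false]
        have : k + 1 + (j - i) = k + (j - i) + 1 := by omega
        rw [this]
        exact hs _ (by omega)
  intro i j hi hj he
  rcases lt_trichotomy i j with h1 | h1 | h1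
  · exact (key i j h1 hj he).elim
  · exact h1
  · exact (key j i h1 hi he.symm).elim

/-- `Letter adj b x z S`: a path of length at least one joining `x` and `z`, directed from `x` to
`z` if `b = true` and from `z` to `x` if `b = false`, whose inner vertices lie in `S`. -/
def Letter (adj : V → V → Prop) (b : Bool) (x z : V) (S : Set V) : Prop :=
  ∃ (m : ℕ) (q : ℕ → V), 1 ≤ m ∧ q 0 = x ∧ q m = z ∧
    (∀ j < m, (b = true → adj (q j) (q (j + 1))) ∧ (b = false → adj (q (j + 1)) (q j))) ∧
    (∀ j, 1 ≤ j → j < m → q j ∈ S) ∧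
    (∀ i j, i < m → j < m → q i = q j → i = j)

/-- `Traj adj σ a k x y S`: the letters `σ a, …, σ (k-1)` are realised, one after the other, by
paths leading from `x` to `y`, all vertices used (except `x` and the last vertex `y`) are
distinct, distinct from `x`, and lie in `S`. -/
def Traj (adj : V → V → Prop) (σ : ℕ → Bool) (a k : ℕ) (x y : V) (S : Set V) : Prop :=
  ∃ (ℓ : ℕ → ℕ) (p : ℕ → ℕ → V), p a 0 = x ∧ p k 0 = y ∧
    (∀ i, a ≤ i → i < k → 1 ≤ ℓ i ∧ p i (ℓ i) = p (i + 1) 0 ∧
      ∀ j < ℓ i, (σ i = true → adj (p i j) (p i (j + 1))) ∧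
        (σ i = false → adj (p i (j + 1)) (p i j))) ∧
    (∀ i j, a ≤ i → i < k → j < ℓ i → (i = a ∧ j = 0) ∨ p i j ∈ S) ∧
    (∀ i i' j j', a ≤ i → i < k → a ≤ i' → i' < k → j < ℓ i → j' < ℓ i' →
      p i j = p i' j' → i = i' ∧ j = j')

lemma Letter.single {adj : V → V → Prop} {b : Bool} {x z : V} (S : Set V)
    (h : (b = true → adj x z) ∧ (b = false → adj z x)) : Letter adj b x z S := by
  refine ⟨1, fun i => if i = 0 then x else z, le_refl _, by simp, by simp, ?_, ?_, ?_⟩
  · intro j hj
    have : j = 0 := by omega
    subst this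
    simpa using h
  · intro j h1 h2; omega
  · intro i j hi hj _; omega

lemma Letter.mono {adj : V → V → Prop} {b : Bool} {x z : V} {S S' : Set V}
    (h : Letter adj b x z S) (hS : S ⊆ S') : Letter adj b x z S' := by
  obtain ⟨m, q, h1, h2, h3, h4, h5, h6⟩ := h
  exact ⟨m, q, h1, h2, h3, h4, fun j a b => hS (h5 j a b), h6⟩

/-- A forward letter from a reachability statement. -/
lemma Letter.forward {adj : V → V → Prop} {x a z : V} {S : Set V}
    (h : ReflTransGen (fun u v => adj u v ∧ v ∈ S) x a) (haz : adj a z) :
    Letter adj true x z S := by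
  obtain ⟨n, q, h0, hn, hs, hi⟩ := exists_simple h
  refine ⟨n + 1, fun i => if i ≤ n then q i else z, by omega, by simp [h0], by simp, ?_, ?_, ?_⟩
  · intro j hj
    refine ⟨fun _ => ?_, by simp⟩
    rcases Nat.lt_succ_iff_lt_or_eq.mp hj with h1 | h1
    · have e1 : j ≤ n := h1.le
      have e2 : j + 1 ≤ n := h1
      simp only [e1, e2, if_true]
      exact (hs j h1).1
    · subst h1
      have e2 : ¬ (j + 1 ≤ j) := by omega
      simp only [le_refl, e2, if_true, if_false]
      rw [hn]; exact haz
  · intro j h1 h2
    have e1 : j ≤ n := by omega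
    simp only [e1, if_true]
    obtain ⟨i, rfl⟩ : ∃ i, j = i + 1 := ⟨j - 1, by omega⟩
    exact (hs i (by omega)).2
  · intro i j hi' hj' he
    have e1 : i ≤ n := by omega
    have e2 : j ≤ n := by omega
    simp only [e1, e2, if_true] at he
    exact hi i j e1 e2 he

/-- A backward letter from a reachability statement. -/
lemma Letter.backward {adj : V → V → Prop} {x a z : V} {S : Set V}
    (h : ReflTransGen (fun u v => adj v u ∧ v ∈ S) x a) (haz : adj z a) :
    Letter adj false x z S := by
  obtain ⟨m, q, h1, h2, h3, h4, h5, h6⟩ := Letter.forward (adj := fun u v => adj v u) h haz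
  refine ⟨m, q, h1, h2, h3, fun j hj => ⟨by simp, fun _ => ?_⟩, h5, h6⟩
  exact (h4 j hj).1 rfl

lemma Traj.single {adj : V → V → Prop} {σ : ℕ → Bool} {a : ℕ} {x z : V} {S : Set V}
    (h : Letter adj (σ a) x z S) : Traj adj σ a (a + 1) x z S := by
  obtain ⟨m, q, h1, h2, h3, h4, h5, h6⟩ := h
  refine ⟨fun _ => m, fun i j => if i = a then q j else z, by simp [h2], by simp, ?_, ?_, ?_⟩
  · intro i hi hi'
    have : i = a := by omega
    subst this
    refine ⟨h1, by simp [h3], ?_⟩
    intro j hj
    simpa using h4 j hj
  · intro i j hi hi' hj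
    have : i = a := by omega
    subst this
    by_cases hj0 : j = 0
    · exact Or.inl ⟨rfl, hj0⟩
    · right
      simp only [if_true]
      exact h5 j (by omega) hj
  · intro i i' j j' hi hi' hi2 hi2' hj hj' he
    have e1 : i = a := by omega
    have e2 : i' = a := by omega
    subst e1
    subst e2
    simp only [if_true] at he
    exact ⟨rfl, h6 j j' hj hj' he⟩

lemma Traj.mono {adj : V → V → Prop} {σ : ℕ → Bool} {a k : ℕ} {x y : V} {S S' : Set V}
    (h : Traj adj σ a k x y S) (hS : S ⊆ S') : Traj adj σ a k x y S' := by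
  obtain ⟨ℓ, p, h1, h2, h3, h4, h5⟩ := h
  exact ⟨ℓ, p, h1, h2, h3, fun i j a b c => (h4 i j a b c).imp id (fun h => hS h), h5⟩

/-- Adding a letter in front of a trajectory. -/
lemma Traj.cons {adj : V → V → Prop} {σ : ℕ → Bool} {a k : ℕ} {x z y : V} {S1 S2 S : Set V}
    (hak : a + 1 ≤ k)
    (hL : Letter adj (σ a) x z S1) (hT : Traj adj σ (a + 1) k z y S2)
    (hxz : x ≠ z) (hx2 : x ∉ S2) (hz1 : z ∉ S1) (hd : ∀ v, v ∈ S1 → v ∉ S2)
    (h1S : S1 ⊆ S) (h2S : S2 ⊆ S) (hzS : z ∈ S) :
    Traj adj σ a k x y S := by
  obtain ⟨m, q, g1, g2, g3, g4, g5, g6⟩ := hL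
  obtain ⟨ℓ, p, h1, h2, h3, h4, h5⟩ := hT
  have hne : ∀ i, a + 1 ≤ i → i ≠ a := fun i hi => by omega
  refine ⟨Function.update ℓ a m, Function.update p a q, ?_, ?_, ?_, ?_, ?_⟩
  · simp [g2]
  · rw [Function.update_of_ne (hne k hak)]; exact h2
  · intro i hi hik
    rcases Nat.eq_or_lt_of_le hi with he | hlt
    · subst he
      simp only [Function.update_self]
      refine ⟨g1, ?_, g4⟩
      rw [Function.update_of_ne (by omega), h1, g3]
    · rw [Function.update_of_ne (hne i hlt), Function.update_of_ne (hne i hlt),
        Function.update_of_ne (by omega)]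
      exact h3 i hlt hik
  · intro i j hi hik hj
    rcases Nat.eq_or_lt_of_le hi with he | hlt
    · subst he
      rw [Function.update_self] at hj
      rw [Function.update_self]
      by_cases hj0 : j = 0
      · exact Or.inl ⟨rfl, hj0⟩
      · exact Or.inr (h1S (g5 j (by omega) hj))
    · rw [Function.update_of_ne (hne i hlt)] at hj
      rw [Function.update_of_ne (hne i hlt)]
      right
      rcases h4 i j hlt hik hj with ⟨e1, e2⟩ | hm
      · rw [e1, e2, h1]; exact hzS
      · exact h2S hm
  · -- classification of the vertices of the two parts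
    have cA : ∀ j, j < m → q j = x ∨ q j ∈ S1 := by
      intro j hj
      by_cases hj0 : j = 0
      · left; rw [hj0, g2]
      · right; exact g5 j (by omega) hj
    have cB : ∀ i j, a + 1 ≤ i → i < k → j < ℓ i → p i j = z ∨ p i j ∈ S2 := by
      intro i j hi hik hj
      rcases h4 i j hi hik hj with ⟨e1, e2⟩ | hm
      · left; rw [e1, e2, h1]
      · right; exact hm
    have disj : ∀ j i' j', j < m → a + 1 ≤ i' → i' < k → j' < ℓ i' → q j ≠ p i' j' := by
      intro j i' j' hj hi' hik' hj' he
      rcases cA j hj with e1 | e1 <;> rcases cB i' j' hi' hik' hj' with e2 | e2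
      · exact hxz (by rw [← e1, he, e2])
      · exact hx2 (by rw [← e1, he]; exact e2)
      · exact hz1 (by rw [← e2, ← he]; exact e1)
      · exact hd _ e1 (by rw [he]; exact e2)
    intro i i' j j' hi hik hi' hik' hj hj' he
    rcases Nat.eq_or_lt_of_le hi with e | hlt
    · subst e
      rcases Nat.eq_or_lt_of_le hi' with e' | hlt'
      · subst e'
        simp only [Function.update_self] at hj hj' he
        exact ⟨rfl, g6 j j' hj hj' he⟩
      · simp only [Function.update_self] at hj he
        rw [Function.update_of_ne (hne i' hlt')] at hj' he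
        exact (disj j i' j' hj hlt' hik' hj' he).elim
    · rcases Nat.eq_or_lt_of_le hi' with e' | hlt'
      · subst e'
        simp only [Function.update_self] at hj' he
        rw [Function.update_of_ne (hne i hlt)] at hj he
        exact (disj j' i j hj' hlt hik hj he.symm).elim
      · rw [Function.update_of_ne (hne i hlt)] at hj he
        rw [Function.update_of_ne (hne i' hlt')] at hj' he
        exact h5 i i' j j' hlt hik hlt' hik' hj hj' he

end Pool.Agent.J6H69.Mader
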