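import Pool.Agent.J6H69.Mader.Phase1

set_option autoImplicit false

/-!
# Directed cycles, rotations, and the final form
-/

namespace Pool.Agent.J6H69.Mader

open Relation Finset
open scoped Classical

variable {V : Type*} [Fintype V] {adj : V → V → Prop}

/-- A digraph with all out-degrees at least `k` contains a directed cycle with more than `k`
vertices. -/
theorem exists_dicycle [Nonempty V] {k : ℕ} (hK : ∀ v, k ≤ (outA adj Finset.univ v).card) (hk : 1 ≤ k) :
    ∃ (N : ℕ) (c : ℕ → V), k < N ∧ (∀ i j, i < N → j < N → c i = c j → i = j) ∧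
      (∀ i, i + 1 < N → adj (c i) (c (i + 1))) ∧ adj (c (N - 1)) (c 0) := by
  -- a longest path
  let P : ℕ → Prop := fun n => ∃ q : ℕ → V, (∀ i < n, adj (q i) (q (i + 1))) ∧
    (∀ i j, i ≤ n → j ≤ n → q i = q j → i = j)
  have hP0 : P 0 := by
    obtain ⟨v⟩ := ‹Nonempty V›
    exact ⟨fun _ => v, by simp, fun i j hi hj _ => by omega⟩
  have hbound : ∀ n, P n → n + 1 ≤ Fintype.card V := by
    rintro n ⟨q, _, hq⟩
    have : Function.Injective (fun i : Fin (n + 1) => q i.1) := by
      intro a b hab
      exact Fin.ext (hq a.1 b.1 (by omega) (by omega) hab)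
    have h := Fintype.card_le_of_injective _ this
    simpa using h
  obtain ⟨n, ⟨q, hq1, hq2⟩, hmax⟩ : ∃ n, P n ∧ ∀ m, P m → m ≤ n := by
    classical
    have hex : ∃ n, P n ∧ ∀ m, P m → m ≤ n := by
      refine ⟨Nat.findGreatest P (Fintype.card V), Nat.findGreatest_spec (Nat.zero_le _) hP0, ?_⟩
      intro m hm
      exact Nat.le_findGreatest (by have := hbound m hm; omega) hm
    exact hex
  -- all out-neighbours of the last vertex are on the path
  have hon : ∀ v ∈ outA adj Finset.univ (q n), ∃ i < n, q i = v := by
    intro v hv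
    rw [mem_outA] at hv
    by_contra hcon
    push Not at hcon
    have hnot : ∀ i ≤ n, q i ≠ v := by
      intro i hi
      rcases Nat.eq_or_lt_of_le hi with h1 | h1
      · rw [h1]; exact hv.2.1.symm
      · exact hcon i h1
    have : P (n + 1) := by
      refine ⟨fun i => if i ≤ n then q i else v, ?_, ?_⟩
      · intro i hi
        rcases Nat.lt_succ_iff_lt_or_eq.mp hi with h1 | h1
        · have e1 : i ≤ n := h1.le
          have e2 : i + 1 ≤ n := h1
          simp only [e1, e2, if_true]
          exact hq1 i h1
        · subst h1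
          have e2 : ¬ (i + 1 ≤ i) := by omega
          simp only [le_refl, e2, if_true, if_false]
          exact hv.2.2
      · intro i j hi hj he
        by_cases h1 : i ≤ n <;> by_cases h2 : j ≤ n
        · simp only [h1, h2, if_true] at he
          exact hq2 i j h1 h2 he
        · simp only [h1, h2, if_true, if_false] at he
          exact absurd he (hnot i h1)
        · simp only [h1, h2, if_true, if_false] at he
          exact absurd he.symm (hnot j h2)
        · omega
    have := hmax _ this
    omega
  -- the first out-neighbour on the path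
  set I : Finset ℕ := (Finset.range n).filter (fun i => q i ∈ outA adj Finset.univ (q n)) with hI
  have hIcard : k ≤ I.card := by
    have h1 : outA adj Finset.univ (q n) ⊆ I.image q := by
      intro v hv
      obtain ⟨i, hi, hiv⟩ := hon v hv
      rw [Finset.mem_image]
      refine ⟨i, ?_, hiv⟩
      rw [hI, Finset.mem_filter, Finset.mem_range]
      exact ⟨hi, by rw [hiv]; exact hv⟩
    exact (hK (q n)).trans ((Finset.card_le_card h1).trans Finset.card_image_le)
  have hIne : I.Nonempty := by rw [← Finset.card_pos]; omega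
  obtain ⟨i0, hi0, hi0min⟩ := Finset.exists_min_image I id hIne
  have hIsub : I ⊆ Finset.Ico i0 n := by
    intro i hi
    rw [Finset.mem_Ico]
    have h1 := hi0min i hi
    rw [hI, Finset.mem_filter, Finset.mem_range] at hi
    exact ⟨h1, hi.1⟩
  have h1 := Finset.card_le_card hIsub
  rw [Nat.card_Ico] at h1
  have hi0n : i0 < n := by
    rw [hI, Finset.mem_filter, Finset.mem_range] at hi0
    exact hi0.1
  refine ⟨n + 1 - i0, fun i => q (i0 + i), by omega, ?_, ?_, ?_⟩
  · intro i j hi hj he
    have := hq2 (i0 + i) (i0 + j) (by omega) (by omega) he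
    omega
  · intro i hi
    have : i0 + (i + 1) = i0 + i + 1 := by omega
    simp only [this]
    exact hq1 _ (by omega)
  · have e1 : i0 + (n + 1 - i0 - 1) = n := by omega
    simp only [e1, add_zero]
    rw [hI, Finset.mem_filter, mem_outA] at hi0
    exact hi0.2.2.2

/-- The conclusion of the problem for the cyclic word `σ 0, …, σ (k-1)`. -/
def Sub (adj : V → V → Prop) (σ : ℕ → Bool) (k : ℕ) : Prop :=
  ∃ ℓ : ℕ → ℕ, ∃ p : ℕ → ℕ → V,
    (∀ i < k, 1 ≤ ℓ i ∧ p i (ℓ i) = p ((i + 1) % k) 0 ∧
      ∀ j < ℓ i, (σ i = true → adj (p i j) (p i (j + 1))) ∧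
                 (σ i = false → adj (p i (j + 1)) (p i j))) ∧
    (∀ i i' j j' : ℕ, i < k → i' < k → j < ℓ i → j' < ℓ i' →
      p i j = p i' j' → i = i' ∧ j = j')

omit [Fintype V] in
lemma Sub.of_cycle {R : V → V → Prop} {σ : ℕ → Bool} {k N : ℕ} {c : ℕ → V} (_hk : 1 ≤ k)
    (hkN : k ≤ N) (hc : ∀ i j, i < N → j < N → c i = c j → i = j)
    (h1 : ∀ i, i + 1 < N → R (c i) (c (i + 1))) (h2 : R (c (N - 1)) (c 0))
    (hσ : ∀ i < k, ∀ a b, R a b → (σ i = true → adj a b) ∧ (σ i = false → adj b a)) :
    Sub adj σ k := by
  have hR : ∀ m, R (c (m % N)) (c ((m + 1) % N)) := by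
    intro m
    have hlt := Nat.mod_lt m (show 0 < N by omega)
    have hadd : (m + 1) % N = (m % N + 1) % N := by rw [Nat.add_mod]; simp
    rw [hadd]
    rcases Nat.lt_or_ge (m % N + 1) N with h | h
    · rw [Nat.mod_eq_of_lt h]; exact h1 _ h
    · have h3 : m % N + 1 = N := by omega
      rw [h3, Nat.mod_self]
      have h4 : m % N = N - 1 := by omega
      rw [h4]; exact h2
  refine ⟨fun i => if i = k - 1 then N - (k - 1) else 1, fun i j => c ((i + j) % N), ?_, ?_⟩
  · intro i hi
    refine ⟨?_, ?_, ?_⟩
    · by_cases h : i = k - 1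
      · simp only [h, if_true]; omega
      · simp only [h, if_false]; omega
    · by_cases h : i = k - 1
      · have e1 : k - 1 + (N - (k - 1)) = N := by omega
        have e2 : k - 1 + 1 = k := by omega
        simp only [h, if_true, e1, e2, Nat.mod_self, add_zero, Nat.zero_mod]
      · have e1 : (i + 1) % k = i + 1 := Nat.mod_eq_of_lt (by omega)
        simp only [h, if_false, e1, add_zero]
    · intro j _
      exact hσ i hi _ _ (hR (i + j))
  · intro i i' j j' hi hi' hj hj' he
    have aux : ∀ i j, i < k → j < (if i = k - 1 then N - (k - 1) else 1) →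
        i + j < N ∧ (i < k - 1 → j = 0) := by
      intro i j hi hj
      by_cases h : i = k - 1
      · simp only [h, if_true] at hj
        exact ⟨by omega, by omega⟩
      · simp only [h, if_false] at hj
        exact ⟨by omega, by omega⟩
    obtain ⟨a1, a2⟩ := aux i j hi hj
    obtain ⟨b1, b2⟩ := aux i' j' hi' hj'
    simp only [Nat.mod_eq_of_lt a1, Nat.mod_eq_of_lt b1] at he
    have := hc _ _ a1 b1 he
    rcases Nat.lt_or_ge i (k - 1) with h | h <;> rcases Nat.lt_or_ge i' (k - 1) with h' | h'
    · have := a2 h; have := b2 h'; omega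
    · have := a2 h; omega
    · have := b2 h'; omega
    · omega

omit [Fintype V] in
lemma Sub.of_traj {σ : ℕ → Bool} {k : ℕ} {t : V} (_hk : 1 ≤ k)
    (h : Traj adj σ 0 k t t Set.univ) : Sub adj σ k := by
  obtain ⟨ℓ, p, h1, h2, h3, _, h5⟩ := h
  refine ⟨ℓ, p, ?_, ?_⟩
  · intro i hi
    obtain ⟨g1, g2, g3⟩ := h3 i (Nat.zero_le _) hi
    refine ⟨g1, ?_, g3⟩
    rw [g2]
    rcases Nat.eq_or_lt_of_le (show i + 1 ≤ k from hi) with h | h
    · rw [h, Nat.mod_self, h1, h2]
    · rw [Nat.mod_eq_of_lt h]
  · intro i i' j j' hi hi' hj hj' he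
    exact h5 i i' j j' (Nat.zero_le _) hi (Nat.zero_le _) hi' hj hj' he

omit [Fintype V] in
lemma Sub.rotate {σ : ℕ → Bool} {k r : ℕ} (hr : r < k)
    (h : Sub adj (fun i => σ ((r + i) % k)) k) : Sub adj σ k := by
  obtain ⟨ℓ, p, h1, h2⟩ := h
  have hk : 0 < k := by omega
  have hinv : ∀ i, i < k → (r + (i + k - r) % k) % k = i := by
    intro i hi
    rcases Nat.lt_or_ge i r with h | h
    · rw [Nat.mod_eq_of_lt (show i + k - r < k by omega)]
      have : r + (i + k - r) = i + k := by omega
      rw [this, Nat.add_mod_right, Nat.mod_eq_of_lt hi]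
    · have e : i + k - r = (i - r) + k := by omega
      rw [e, Nat.add_mod_right, Nat.mod_eq_of_lt (show i - r < k by omega)]
      have : r + (i - r) = i := by omega
      rw [this, Nat.mod_eq_of_lt hi]
  have hnext : ∀ i, i < k → ((i + 1) % k + k - r) % k = ((i + k - r) % k + 1) % k := by
    intro i hi
    have e1 : (((i + 1) % k + k - r) % k) = ((i + 1) % k + (k - r)) % k := by
      congr 1; omega
    have e2 : ((i + k - r) % k + 1) % k = (i + k - r + 1) % k := by
      rw [Nat.mod_add_mod]
    rw [e1, e2, Nat.mod_add_mod]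
    congr 1; omega
  refine ⟨fun i => ℓ ((i + k - r) % k), fun i j => p ((i + k - r) % k) j, ?_, ?_⟩
  · intro i hi
    obtain ⟨g1, g2, g3⟩ := h1 ((i + k - r) % k) (Nat.mod_lt _ hk)
    refine ⟨g1, ?_, ?_⟩
    · simp only []
      rw [g2, hnext i hi]
    · intro j hj
      have := g3 j hj
      simp only [hinv i hi] at this
      exact this
  · intro i i' j j' hi hi' hj hj' he
    obtain ⟨g1, g2⟩ := h2 _ _ _ _ (Nat.mod_lt _ hk) (Nat.mod_lt _ hk) hj hj' he
    refine ⟨?_, g2⟩
    rw [← hinv i hi, ← hinv i' hi', g1]

/-- Every digraph with all out-degrees at least `3 k` contains a subdivision of every orientation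
of the `k`-cycle. -/
theorem sub_of_outdegree [Nonempty V] (σ : ℕ → Bool) (k : ℕ) (hk : 2 ≤ k)
    (hK : ∀ v, 3 * k ≤ (outA adj Finset.univ v).card) : Sub adj σ k := by
  by_cases hconst : ∀ i < k, σ i = σ 0
  · obtain ⟨N, c, hN, hc, hc1, hc2⟩ := exists_dicycle (adj := adj) (k := k)
      (fun v => le_trans (by omega) (hK v)) (by omega)
    cases hσ0 : σ 0 with
    | true =>
      refine Sub.of_cycle (R := adj) (c := c) (N := N) (by omega) (by omega) hc hc1 hc2 ?_
      intro i hi a b hab
      rw [hconst i hi, hσ0]
      exact ⟨fun _ => hab, by simp⟩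
    | false =>
      refine Sub.of_cycle (R := fun a b => adj b a) (c := fun i => c (N - 1 - i)) (N := N)
        (by omega) (by omega) ?_ ?_ ?_ ?_
      · intro i j hi hj he
        have := hc _ _ (by omega) (by omega) he
        omega
      · intro i hi
        have : N - 1 - i = (N - 1 - (i + 1)) + 1 := by omega
        rw [this]
        exact hc1 _ (by omega)
      · simp only [Nat.sub_zero, Nat.sub_self]
        exact hc2
      · intro i hi a b hab
        rw [hconst i hi, hσ0]
        exact ⟨by simp, fun _ => hab⟩
  · -- there is a position with a `-` preceded by a `+`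
    obtain ⟨r, hr, hr1, hr2⟩ : ∃ r, r < k ∧ σ r = false ∧ σ ((r + (k - 1)) % k) = true := by
      by_contra hcon
      push Not at hcon
      -- going backwards, `-` propagates
      have hprop : ∀ r, r < k → σ r = false → σ ((r + (k - 1)) % k) = false := by
        intro r hr h
        have := hcon r hr h
        simpa using this
      obtain ⟨s, hs, hsf⟩ : ∃ s, s < k ∧ σ s = false := by
        by_contra hno
        push Not at hno
        apply hconst
        intro i hi
        have h1 := hno i hi
        have h2 := hno 0 (by omega)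
        simp only [ne_eq, Bool.not_eq_false] at h1 h2
        rw [h1, h2]
      have hall : ∀ m, σ ((s + m * (k - 1)) % k) = false := by
        intro m
        induction m with
        | zero => simp only [Nat.zero_mul, add_zero]; rw [Nat.mod_eq_of_lt hs]; exact hsf
        | succ m ih =>
          have h1 := hprop _ (Nat.mod_lt _ (by omega)) ih
          have h2 : ((s + m * (k - 1)) % k + (k - 1)) % k = (s + (m + 1) * (k - 1)) % k := by
            rw [Nat.mod_add_mod]; congr 1; ring
          rw [h2] at h1; exact h1
      have hall' : ∀ i, i < k → σ i = false := by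
        intro i hi
        have h1 := hall (s + (k - i))
        have h2 : (s + (s + (k - i)) * (k - 1)) % k = i := by
          obtain ⟨k', rfl⟩ : ∃ k', k = k' + 1 := ⟨k - 1, by omega⟩
          obtain ⟨d, hd⟩ : ∃ d, k' + 1 - i = d := ⟨_, rfl⟩
          have h3 : i + d = k' + 1 := by omega
          rw [hd]
          have h4 : s + (s + d) * (k' + 1 - 1) = i + (s + d - 1) * (k' + 1) := by
            have h5 : k' + 1 - 1 = k' := by omega
            rw [h5]
            obtain ⟨e, he⟩ : ∃ e, s + d = e + 1 := ⟨s + d - 1, by omega⟩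
            rw [he]
            have h6 : e + 1 - 1 = e := by omega
            rw [h6]
            have h7 : s = e + 1 - d := by omega
            have h8 : (e + 1) * k' + s = i + e * (k' + 1) := by
              have h9 : s + d = e + 1 := he
              nlinarith
            omega
          rw [h4, Nat.add_mul_mod_self_right, Nat.mod_eq_of_lt hi]
        rw [h2] at h1; exact h1
      apply hconst
      intro i hi
      rw [hall' i hi, hall' 0 (by omega)]
    apply Sub.rotate hr
    obtain ⟨t, ht⟩ := closed_traj (adj := adj) (fun i => σ ((r + i) % k)) k hk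
      (by simp only [add_zero]; rw [Nat.mod_eq_of_lt hr]; exact hr1) hr2 hK
    exact Sub.of_traj (by omega) ht

end Pool.Agent.J6H69.Mader
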