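import Pool.Agent.J6H69.Mader.States

set_option autoImplicit false

/-!
# The fork: making a sink

In an `FS` state the current vertex and a smaller region are joined to a common vertex (the sink),
at the cost of at most one exit.  The disjoint paths needed here come from Hall's theorem.
-/

namespace Pool.Agent.J6H69.Mader

open Relation Finset
open scoped Classical

variable {V : Type*} {adj : V → V → Prop} {T : Set V}

lemma Letter.remove_start {b : Bool} {x z : V} {S : Set V}
    (h : Letter adj b x z S) : Letter adj b x z (S \ {x}) := by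
  obtain ⟨m, q, h1, h2, h3, h4, h5, h6⟩ := h
  refine ⟨m, q, h1, h2, h3, h4, ?_, h6⟩
  intro j hj hjm
  refine ⟨h5 j hj hjm, ?_⟩
  intro he
  have : q j = q 0 := by rw [h2]; exact he
  have := h6 j 0 hjm (by omega) this
  omega

/-- A region minimising the number of exits. -/
lemma exists_atom (adj : V → V → Prop) (A Z : Finset V) (hZ : Z.Nonempty) :
    ∃ X, X ⊆ Z ∧ X.Nonempty ∧
      (∀ Y, Y ⊆ Z → Y.Nonempty → (nb adj A X).card ≤ (nb adj A Y).card) ∧
      (∀ Y, Y ⊆ X → Y.Nonempty → Y ≠ X → (nb adj A X).card + 1 ≤ (nb adj A Y).card) := by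
  set F : Finset (Finset V) := Z.powerset.filter (fun Y => Y.Nonempty) with hF
  have hFne : F.Nonempty := ⟨Z, by rw [hF, Finset.mem_filter, Finset.mem_powerset]; exact ⟨Finset.Subset.refl _, hZ⟩⟩
  obtain ⟨X, hXF, hmin⟩ := Finset.exists_min_image F
    (fun Y => (nb adj A Y).card * (Z.card + 1) + Y.card) hFne
  rw [hF, Finset.mem_filter, Finset.mem_powerset] at hXF
  obtain ⟨hXZ, hXne⟩ := hXF
  have key : ∀ Y, Y ⊆ Z → Y.Nonempty →
      (nb adj A X).card * (Z.card + 1) + X.card ≤ (nb adj A Y).card * (Z.card + 1) + Y.card := by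
    intro Y hY hne
    exact hmin Y (by rw [hF, Finset.mem_filter, Finset.mem_powerset]; exact ⟨hY, hne⟩)
  refine ⟨X, hXZ, hXne, ?_, ?_⟩
  · intro Y hY hne
    have h1 := key Y hY hne
    have h2 := Finset.card_le_card hY
    by_contra hlt
    push Not at hlt
    have h3 : ((nb adj A Y).card + 1) * (Z.card + 1) ≤ (nb adj A X).card * (Z.card + 1) :=
      Nat.mul_le_mul_right _ hlt
    have h4 : 0 < X.card := Finset.card_pos.mpr hXne
    nlinarith
  · intro Y hY hne hYX
    have h1 := key Y (hY.trans hXZ) hne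
    have h2 : Y.card < X.card := Finset.card_lt_card (Finset.ssubset_iff_subset_ne.mpr ⟨hY, hYX⟩)
    by_contra hlt
    push Not at hlt
    have h3 : (nb adj A Y).card * (Z.card + 1) ≤ (nb adj A X).card * (Z.card + 1) :=
      Nat.mul_le_mul_right _ (by omega)
    omega

/-- Hall's theorem gives a system of disjoint paths, encoded by an injective successor
function. -/
lemma exists_succ {A Z X : Finset V} (hZA : Z ⊆ A) (hX : X ⊆ Z) (hXne : X.Nonempty)
    (hmin : ∀ Y, Y ⊆ Z → Y.Nonempty → (nb adj A X).card ≤ (nb adj A Y).card) :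
    ∃ r : V → V → Prop,
      (∀ a b, r a b → a ∈ Z ∧ a ∉ X ∧ b ∈ A ∧ b ∉ X ∧ b ∉ nb adj A X ∧ (b = a ∨ adj a b)) ∧
      (∀ a, a ∈ Z → a ∉ X → ∃ b, r a b) ∧
      (∀ a b b', r a b → r a b' → b = b') ∧
      (∀ a a' b, r a b → r a' b → a = a') := by
  set E := nb adj A X with hE
  let ι := {v : V // v ∈ Z \ X}
  let t : ι → Finset V := fun v => (A \ (X ∪ E)).filter (fun b => b = v.1 ∨ adj v.1 b)
  have hall : ∀ s : Finset ι, s.card ≤ (s.biUnion t).card := by
    intro s
    rcases s.eq_empty_or_nonempty with hs | hs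
    · simp [hs]
    set Y : Finset V := s.map (Function.Embedding.subtype _) with hY
    have hYc : Y.card = s.card := Finset.card_map _
    have hYmem : ∀ v, v ∈ Y ↔ ∃ h : v ∈ Z \ X, (⟨v, h⟩ : ι) ∈ s := by
      intro v
      rw [hY, Finset.mem_map]
      constructor
      · rintro ⟨⟨w, hw⟩, hws, rfl⟩
        exact ⟨hw, hws⟩
      · rintro ⟨h, hs⟩
        exact ⟨⟨v, h⟩, hs, rfl⟩
    have hYZ : Y ⊆ Z \ X := by
      intro v hv
      obtain ⟨h, _⟩ := (hYmem v).mp hv
      exact h
    have hsub : (Y \ E) ∪ (nb adj A Y \ (X ∪ E)) ⊆ s.biUnion t := by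
      intro b hb
      rw [Finset.mem_biUnion]
      rcases Finset.mem_union.mp hb with h1 | h1
      · rw [Finset.mem_sdiff] at h1
        obtain ⟨hz, hs⟩ := (hYmem b).mp h1.1
        refine ⟨⟨b, hz⟩, hs, ?_⟩
        rw [Finset.mem_filter, Finset.mem_sdiff, Finset.mem_union, not_or]
        rw [Finset.mem_sdiff] at hz
        exact ⟨⟨hZA hz.1, hz.2, h1.2⟩, Or.inl rfl⟩
      · rw [Finset.mem_sdiff, mem_nb] at h1
        obtain ⟨⟨g1, g2, u, hu, hub⟩, g3⟩ := h1
        obtain ⟨hz, hs⟩ := (hYmem u).mp hu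
        refine ⟨⟨u, hz⟩, hs, ?_⟩
        rw [Finset.mem_filter, Finset.mem_sdiff]
        exact ⟨⟨g1, g3⟩, Or.inr hub⟩
    have hdisj : Disjoint (Y \ E) (nb adj A Y \ (X ∪ E)) := by
      rw [Finset.disjoint_left]
      intro v hv hv'
      rw [Finset.mem_sdiff] at hv hv'
      exact (mem_nb.mp hv'.1).2.1 hv.1
    have h1 := Finset.card_le_card hsub
    rw [Finset.card_union_of_disjoint hdisj] at h1
    have h2 : (Y \ E).card + (Y ∩ E).card = Y.card := Finset.card_sdiff_add_card_inter Y E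
    have h3 : (E \ Y).card + (E ∩ Y).card = E.card := Finset.card_sdiff_add_card_inter E Y
    have h4 : E.card ≤ (nb adj A (X ∪ Y)).card := by
      refine hmin (X ∪ Y) ?_ (hXne.mono Finset.subset_union_left)
      exact Finset.union_subset hX (hYZ.trans Finset.sdiff_subset)
    have h5 : nb adj A (X ∪ Y) ⊆ (E \ Y) ∪ (nb adj A Y \ (X ∪ E)) := by
      intro v hv
      rw [mem_nb] at hv
      obtain ⟨g1, g2, u, hu, huv⟩ := hv
      rw [Finset.mem_union, not_or] at g2
      by_cases hvE : v ∈ E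
      · exact Finset.mem_union_left _ (Finset.mem_sdiff.mpr ⟨hvE, g2.2⟩)
      · apply Finset.mem_union_right
        rw [Finset.mem_sdiff, Finset.mem_union, not_or, mem_nb]
        refine ⟨⟨g1, g2.2, ?_⟩, g2.1, hvE⟩
        rcases Finset.mem_union.mp hu with h | h
        · exfalso
          apply hvE
          rw [hE, mem_nb]
          exact ⟨g1, g2.1, u, h, huv⟩
        · exact ⟨u, h, huv⟩
    have h6 := (Finset.card_le_card h5).trans (Finset.card_union_le _ _)
    have h7 : (Y ∩ E).card = (E ∩ Y).card := by rw [Finset.inter_comm]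
    omega
  obtain ⟨f, hf1, hf2⟩ := (Finset.all_card_le_biUnion_card_iff_exists_injective t).mp hall
  refine ⟨fun a b => ∃ h : a ∈ Z \ X, f ⟨a, h⟩ = b, ?_, ?_, ?_, ?_⟩
  · rintro a b ⟨h, rfl⟩
    have h1 := hf2 ⟨a, h⟩
    rw [Finset.mem_filter, Finset.mem_sdiff, Finset.mem_union, not_or] at h1
    rw [Finset.mem_sdiff] at h
    exact ⟨h.1, h.2, h1.1.1, h1.1.2.1, h1.1.2.2, h1.2⟩
  · intro a ha haX
    exact ⟨_, Finset.mem_sdiff.mpr ⟨ha, haX⟩, rfl⟩
  · rintro a b b' ⟨h, rfl⟩ ⟨h', rfl⟩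
    rfl
  · rintro a a' b ⟨h, hb⟩ ⟨h', hb'⟩
    have := hf1 (hb.trans hb'.symm)
    exact congrArg Subtype.val this

/-- The new state after removing from `Z` everything but the region `X` and the paths starting
in the kept exits `K`. -/
lemma keep_state {A Z X : Finset V} {x : V} {j d d' B : ℕ} (h : FS adj T A Z x j d B)
    (hX : X ⊆ Z)
    (hatom : ∀ Y, Y ⊆ X → Y.Nonempty → Y ≠ X → (nb adj A X).card + 1 ≤ (nb adj A Y).card)
    {r : V → V → Prop}
    (r1 : ∀ a b, r a b → a ∈ Z ∧ a ∉ X ∧ b ∈ A ∧ b ∉ X ∧ b ∉ nb adj A X ∧ (b = a ∨ adj a b))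
    (r2 : ∀ a, a ∈ Z → a ∉ X → ∃ b, r a b)
    (r4 : ∀ a a' b, r a b → r a' b → a = a')
    {K : Finset V} (hK : K ⊆ nb adj A X) (hKZ : ∀ e ∈ nb adj A X, e ∉ K → e ∈ Z)
    (hd : d' + (nb adj A X \ K).card ≤ d)
    {u : V} (hu : u ∈ X) :
    IS adj T (A.filter (fun v => v ∈ Z → (v ∈ X ∨ ∃ e ∈ K, ReflTransGen r e v))) X u K.card d' := by
  set E := nb adj A X with hE
  set A' := A.filter (fun v => v ∈ Z → (v ∈ X ∨ ∃ e ∈ K, ReflTransGen r e v)) with hA'
  have hEp : ∀ v, v ∈ E → v ∈ A ∧ v ∉ X := fun v hv => ⟨(mem_nb.mp hv).1, (mem_nb.mp hv).2.1⟩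
  have hout : ∀ a b, a ∈ X → adj a b → b ∈ A → b ∈ X ∨ b ∈ E := by
    intro a b ha hab hb
    by_cases hbX : b ∈ X
    · exact Or.inl hbX
    · exact Or.inr (mem_nb.mpr ⟨hb, hbX, a, ha, hab⟩)
  -- elements of `E` are only reachable from themselves
  have hEself : ∀ e v, v ∈ E → ReflTransGen r e v → v = e := by
    intro e v hv hp
    rcases hp.cases_tail with h1 | ⟨c, _, hcv⟩
    · exact h1
    · exact absurd hv (r1 c v hcv).2.2.2.2.1
  have hXA' : X ⊆ A' := by
    intro v hv
    rw [hA', Finset.mem_filter]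
    exact ⟨h.sub (hX hv), fun _ => Or.inl hv⟩
  have hKA' : K ⊆ A' := by
    intro v hv
    rw [hA', Finset.mem_filter]
    exact ⟨(hEp v (hK hv)).1, fun _ => Or.inr ⟨v, hv, ReflTransGen.refl⟩⟩
  have hEK : ∀ v, v ∈ E → v ∈ A' → v ∈ K := by
    intro v hvE hvA'
    by_contra hvK
    have hvZ := hKZ v hvE hvK
    rw [hA', Finset.mem_filter] at hvA'
    rcases hvA'.2 hvZ with h1 | ⟨e, he, hp⟩
    · exact (hEp v hvE).2 h1
    · have := hEself e v hvE hp
      rw [this] at hvK
      exact hvK he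
  have hA'A : A' ⊆ A := Finset.filter_subset _ _
  refine ⟨hXA', hu, ?_, ?_, ?_, ?_, ?_⟩
  · congr 1
    ext v
    rw [mem_nb]
    constructor
    · rintro ⟨g1, g2, w, hw, hwv⟩
      rcases hout w v hw hwv (hA'A g1) with h1 | h1
      · exact absurd h1 g2
      · exact hEK v h1 g1
    · intro hv
      have := mem_nb.mp (hK hv)
      exact ⟨hKA' hv, this.2⟩
  · intro Y hY hne hYX
    have h1 := hatom Y hY hne hYX
    have hsub : nb adj A Y ⊆ nb adj A' Y ∪ (E \ K) := by
      intro v hv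
      rw [mem_nb] at hv
      obtain ⟨g1, g2, w, hw, hwv⟩ := hv
      by_cases hvA' : v ∈ A'
      · exact Finset.mem_union_left _ (mem_nb.mpr ⟨hvA', g2, w, hw, hwv⟩)
      · apply Finset.mem_union_right
        rcases hout w v (hY hw) hwv g1 with h2 | h2
        · exact absurd (hXA' h2) hvA'
        · exact Finset.mem_sdiff.mpr ⟨h2, fun hk => hvA' (hKA' hk)⟩
    have h2 := (Finset.card_le_card hsub).trans (Finset.card_union_le _ _)
    have h3 : (E \ K).card + K.card = E.card := Finset.card_sdiff_add_card_eq_card hK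
    omega
  · intro e he
    have he1 := mem_nb.mp he
    obtain ⟨w, hw, hwe⟩ := he1.2.2
    have heK : e ∈ K := by
      rcases hout w e hw hwe (hA'A he1.1) with h1 | h1
      · exact absurd h1 he1.2.1
      · exact hEK e h1 he1.1
    have heE : e ∈ E := hK heK
    -- vertices reachable from `e`
    have hO : ∀ v, ReflTransGen r e v → v ∈ A ∧ v ∉ X := by
      intro v hp
      rcases hp.cases_tail with h1 | ⟨c, _, hcv⟩
      · rw [h1]; exact hEp e heE
      · exact ⟨(r1 c v hcv).2.2.1, (r1 c v hcv).2.2.2.1⟩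
    -- some of them lie outside `Z`
    obtain ⟨v, hev, hvZ⟩ : ∃ v, ReflTransGen r e v ∧ v ∉ Z := by
      by_contra hcon
      push Not at hcon
      set S := Z.filter (fun v => ReflTransGen r e v) with hS
      have hmemS : ∀ v, v ∈ S ↔ ReflTransGen r e v := by
        intro v
        rw [hS, Finset.mem_filter]
        exact ⟨fun h => h.2, fun h => ⟨hcon v h, h⟩⟩
      have hsucc : ∀ v, v ∈ S → ∃ w, r v w := by
        intro v hv
        have hv' := (hmemS v).mp hv
        exact r2 v (hcon v hv') (hO v hv').2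
      choose g hg using hsucc
      have hinj : (S.attach.image (fun v => g v.1 v.2)).card = S.card := by
        rw [Finset.card_image_of_injective]
        · exact Finset.card_attach
        · intro a b hab
          have h1 := hg a.1 a.2
          have h2 := hg b.1 b.2
          simp only at hab
          rw [hab] at h1
          exact Subtype.ext (r4 _ _ _ h1 h2)
      have hsub : S.attach.image (fun v => g v.1 v.2) ⊆ S.erase e := by
        intro w hw
        rw [Finset.mem_image] at hw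
        obtain ⟨v, _, rfl⟩ := hw
        have h1 := hg v.1 v.2
        refine Finset.mem_erase.mpr ⟨?_, ?_⟩
        · intro he'
          apply (r1 _ _ h1).2.2.2.2.1
          rw [he']; exact heE
        · rw [hmemS]
          exact ((hmemS v.1).mp v.2).tail h1
      have heS : e ∈ S := (hmemS e).mpr ReflTransGen.refl
      have h1 := Finset.card_le_card hsub
      rw [hinj, Finset.card_erase_of_mem heS] at h1
      have h2 : 0 < S.card := Finset.card_pos.mpr ⟨e, heS⟩
      omega
    -- stay in `Z` until then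
    have hvnb : v ∈ nb adj A Z := by
      rcases hev.cases_tail with h1 | ⟨c, _, hcv⟩
      · rw [h1] at hvZ ⊢
        exact mem_nb.mpr ⟨(hEp e heE).1, hvZ, w, hX hw, hwe⟩
      · obtain ⟨c1, c2, c3, c4, c5, c6⟩ := r1 c v hcv
        rcases c6 with c6 | c6
        · exact absurd (c6 ▸ c1) hvZ
        · exact mem_nb.mpr ⟨c3, hvZ, c, c1, c6⟩
    obtain ⟨t, ht, hp⟩ := h.good v hvnb
    refine ⟨t, ht, ?_⟩
    have gen : ∀ v, ReflTransGen r e v → ReflTransGen (fun u v => u ∉ T ∧ adj u v ∧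
        (v ∈ T ∨ (v ∈ A' ∧ v ∉ X))) e v := by
      intro v hv
      induction hv with
      | refl => exact ReflTransGen.refl
      | @tail b c hb hbc ih =>
        obtain ⟨c1, c2, c3, c4, c5, c6⟩ := r1 b c hbc
        rcases c6 with c6 | c6
        · rw [c6]; exact ih
        · refine ih.tail ⟨h.disj b c1, c6, Or.inr ⟨?_, c4⟩⟩
          rw [hA', Finset.mem_filter]
          exact ⟨c3, fun _ => Or.inr ⟨e, heK, hb.tail hbc⟩⟩
    refine (gen v hev).trans (rtg_mono hp ?_)
    rintro a b ⟨g1, g2, g3⟩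
    refine ⟨g1, g2, g3.imp id ?_⟩
    rintro ⟨g4, g5⟩
    refine ⟨?_, fun hh => g5 (hX hh)⟩
    rw [hA', Finset.mem_filter]
    exact ⟨g4, fun hh => absurd hh g5⟩
  · intro y hy
    have h1 := h.deg y (hX hy)
    have hsub : outA adj A y ⊆ outA adj A' y ∪ (E \ K) := by
      intro v hv
      rw [mem_outA] at hv
      by_cases hvA' : v ∈ A'
      · exact Finset.mem_union_left _ (mem_outA.mpr ⟨hvA', hv.2⟩)
      · apply Finset.mem_union_right
        rcases hout y v hy hv.2.2 hv.1 with h2 | h2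
        · exact absurd (hXA' h2) hvA'
        · exact Finset.mem_sdiff.mpr ⟨h2, fun hk => hvA' (hKA' hk)⟩
    have h2 := (Finset.card_le_card hsub).trans (Finset.card_union_le _ _)
    omega
  · intro y hy
    exact h.disj y (hX hy)

/-- The fork. -/
lemma FS.fork {A Z : Finset V} {x : V} {j d B : ℕ} (h : FS adj T A Z x (j + 1) (d + 1) B) :
    (∃ (A' X : Finset V) (ξ : V) (j' : ℕ) (S1 : Set V), j + 1 ≤ j' ∧ j' ≤ B ∧ A' ⊆ A ∧
      IS adj T A' X ξ j' (d + 1) ∧ Letter adj true x ξ S1 ∧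
      (∀ v ∈ S1, v ∈ A ∧ v ∉ A' ∧ v ∉ T)) ∨
    (∃ (A' X : Finset V) (ξ u : V) (j' : ℕ) (S1 S2 : Set V), j ≤ j' ∧ j' + 1 ≤ B ∧ A' ⊆ A ∧
      IS adj T A' X u j' d ∧ Letter adj true x ξ S1 ∧ Letter adj false ξ u S2 ∧
      (∀ v ∈ S1, v ∈ A ∧ v ∉ A' ∧ v ∉ T ∧ v ∉ S2 ∧ v ≠ ξ) ∧
      (∀ v ∈ S2, v ∈ A ∧ v ∉ A' ∧ v ∉ T ∧ v ≠ ξ) ∧
      ξ ∈ A ∧ ξ ∉ A' ∧ ξ ∉ T) := by
  obtain ⟨X, hXZ, hXne, hmin, hatom⟩ := exists_atom adj A Z h.ne
  obtain ⟨r, r1, r2, r3, r4⟩ := exists_succ (adj := adj) h.sub hXZ hXne hmin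
  set E := nb adj A X with hE
  have hEcard : j + 1 ≤ E.card := h.cut X hXZ hXne
  have hEB : E.card ≤ B := (hmin Z (Finset.Subset.refl _) h.ne).trans h.cardB
  -- disjointness of the paths
  have hdisj : ∀ e e' v, e ∈ E → e' ∈ E → ReflTransGen r e v → ReflTransGen r e' v → e = e' := by
    intro e e' v he he' hv
    induction hv with
    | refl =>
      intro hv'
      rcases hv'.cases_tail with h1 | ⟨c, _, hc⟩
      · exact h1
      · exact absurd he (r1 c e hc).2.2.2.2.1
    | @tail b c hb hbc ih =>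
      intro hv'
      rcases hv'.cases_tail with h1 | ⟨c', hc', hcc'⟩
      · rw [h1] at hbc
        exact absurd he' (r1 b e' hbc).2.2.2.2.1
      · have := r4 b c' c hbc hcc'
        rw [← this] at hc'
        exact ih hc'
  -- first hitting vertex
  set S1 : Set V := {v | v ∈ Z ∧ v ∉ X ∧ ∀ e ∈ E, ¬ ReflTransGen r e v} with hS1
  obtain ⟨a, ξ, hxa, haξ, hξZ, hξS⟩ : ∃ a ξ, ReflTransGen (fun u v => adj u v ∧ v ∈ S1) x a ∧
      adj a ξ ∧ ξ ∈ Z ∧ ξ ∉ S1 := by
    by_contra hcon
    push Not at hcon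
    have gen : ∀ w, ReflTransGen (fun u v => adj u v ∧ v ∈ Z) x w →
        ReflTransGen (fun u v => adj u v ∧ v ∈ S1) x w := by
      intro w hw
      induction hw with
      | refl => exact ReflTransGen.refl
      | @tail b c _ hbc ih => exact ih.tail ⟨hbc.1, hcon b c ih hbc.1 hbc.2⟩
    obtain ⟨z, hz⟩ := hXne
    rcases (gen z (h.reach z (hXZ hz))).cases_tail with h1 | ⟨c, _, hc⟩
    · apply h.xA
      rw [← h1]; exact h.sub (hXZ hz)
    · exact hc.2.2.1 hz
  have hL1 : Letter adj true x ξ S1 := Letter.forward hxa haξ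
  by_cases hξX : ξ ∈ X
  · left
    refine ⟨_, X, ξ, E.card, S1, hEcard, hEB, Finset.filter_subset _ _,
      keep_state h hXZ hatom r1 r2 r4 (K := E) (Finset.Subset.refl _)
        (fun e he hne => absurd he hne) (by rw [← hE, Finset.sdiff_self]; simp) hξX, hL1, ?_⟩
    rintro v ⟨hv1, hv2, hv3⟩
    refine ⟨h.sub hv1, ?_, h.disj v hv1⟩
    intro hv
    rw [Finset.mem_filter] at hv
    rcases hv.2 hv1 with h1 | ⟨e, he, hp⟩
    · exact hv2 h1
    · exact hv3 e he hp
  · right
    obtain ⟨e, he, heξ⟩ : ∃ e ∈ E, ReflTransGen r e ξ := by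
      by_contra hcon
      push Not at hcon
      exact hξS ⟨hξZ, hξX, hcon⟩
    have heZ : e ∈ Z := by
      rcases heξ.cases_head with h1 | ⟨c, hc, _⟩
      · rw [h1]; exact hξZ
      · exact (r1 e c hc).1
    obtain ⟨heA, heX, u, hu, hue⟩ := mem_nb.mp he
    have hEcard' : (E.erase e).card = E.card - 1 := Finset.card_erase_of_mem he
    set S2 : Set V := {v | v ∈ Z ∧ ReflTransGen r e v} with hS2
    have hback : ∀ v, ReflTransGen r e v →
        ReflTransGen (fun p q => adj q p ∧ q ∈ S2) v e := by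
      intro v hv
      induction hv with
      | refl => exact ReflTransGen.refl
      | @tail b c hb hbc ih =>
        obtain ⟨c1, c2, c3, c4, c5, c6⟩ := r1 b c hbc
        rcases c6 with c6 | c6
        · rw [c6]; exact ih
        · exact ReflTransGen.head ⟨c6, c1, hb⟩ ih
    have hL2 : Letter adj false ξ u (S2 \ {ξ}) :=
      (Letter.backward (hback ξ heξ) hue).remove_start
    have hOnotX : ∀ v, ReflTransGen r e v → v ∉ X := by
      intro v hv
      rcases hv.cases_tail with h1 | ⟨c, _, hcv⟩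
      · rw [h1]; exact heX
      · exact (r1 c v hcv).2.2.2.1
    have hOout : ∀ v, v ∈ Z → ReflTransGen r e v →
        v ∉ A.filter (fun v => v ∈ Z → (v ∈ X ∨ ∃ e' ∈ E.erase e, ReflTransGen r e' v)) := by
      intro v hvZ hv hmem
      rw [Finset.mem_filter] at hmem
      rcases hmem.2 hvZ with h1 | ⟨e', he', hp⟩
      · exact hOnotX v hv h1
      · rw [Finset.mem_erase] at he'
        exact he'.1 (hdisj e' e v he'.2 he hp hv)
    have hcardsd : (nb adj A X \ E.erase e).card = 1 := by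
      have h1 := Finset.card_sdiff_add_card_eq_card (Finset.erase_subset e E)
      have h2 : 0 < E.card := Finset.card_pos.mpr ⟨e, he⟩
      rw [← hE]
      omega
    refine ⟨_, X, ξ, u, (E.erase e).card, S1, S2 \ {ξ}, by omega, by omega,
      Finset.filter_subset _ _,
      keep_state h hXZ hatom r1 r2 r4 (K := E.erase e) (Finset.erase_subset _ _) ?_ ?_ hu,
      hL1, hL2, ?_, ?_, h.sub hξZ, hOout ξ hξZ heξ, h.disj ξ hξZ⟩
    · intro e' he' hne
      have : e' = e := by
        by_contra hne'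
        exact hne (Finset.mem_erase.mpr ⟨hne', he'⟩)
      rw [this]; exact heZ
    · rw [hcardsd]
    · rintro v ⟨hv1, hv2, hv3⟩
      refine ⟨h.sub hv1, ?_, h.disj v hv1, ?_, ?_⟩
      · intro hv
        rw [Finset.mem_filter] at hv
        rcases hv.2 hv1 with h1 | ⟨e', he', hp⟩
        · exact hv2 h1
        · exact hv3 e' (Finset.mem_of_mem_erase he') hp
      · intro hv
        exact hv3 e he hv.1.2
      · rintro rfl
        exact hv3 e he heξ
    · rintro v ⟨⟨hv1, hv2⟩, hv3⟩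
      exact ⟨h.sub hv1, hOout v hv1 hv2, h.disj v hv1, hv3⟩

end Pool.Agent.J6H69.Mader
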