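import Pool.Agent.J6H69.Mader.Fork

set_option autoImplicit false

/-!
# The induction along the oriented cycle
-/

namespace Pool.Agent.J6H69.Mader

open Relation Finset
open scoped Classical

variable {V : Type*} {adj : V → V → Prop} {T : Set V}

theorem main_ind (σ : ℕ → Bool) (k : ℕ) (hlast : σ (k - 1) = true) :
    ∀ n a, a + n = k → 1 ≤ n →
      (∀ (A X : Finset V) (u : V) (j d : ℕ), IS adj T A X u j d → n ≤ j → j + 2 * n + 1 ≤ d →
        ∃ t ∈ T, Traj adj σ a k u t {v | v ∈ A ∧ v ∉ T ∧ v ≠ u}) ∧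
      (σ a = true → ∀ (A Z : Finset V) (x : V) (j d B : ℕ), FS adj T A Z x j d B → n ≤ j →
        B + 2 * n ≤ d → ∃ t ∈ T, Traj adj σ a k x t {v | v ∈ A ∧ v ∉ T}) := by
  intro n
  induction n using Nat.strong_induction_on with
  | _ n ih =>
  intro a hak hn
  have hb : (σ a = true → ∀ (A Z : Finset V) (x : V) (j d B : ℕ), FS adj T A Z x j d B → n ≤ j →
        B + 2 * n ≤ d → ∃ t ∈ T, Traj adj σ a k x t {v | v ∈ A ∧ v ∉ T}) := by
    intro hσ A Z x j d B h hnj hBd
    obtain ⟨j, rfl⟩ : ∃ j', j = j' + 1 := ⟨j - 1, by omega⟩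
    obtain ⟨d, rfl⟩ : ∃ d', d = d' + 1 := ⟨d - 1, by omega⟩
    rcases Nat.eq_or_lt_of_le hn with hn1 | hn1
    · -- last letter
      obtain ⟨t, ht, hL⟩ := h.final
      have hk : k = a + 1 := by omega
      subst hk
      refine ⟨t, ht, Traj.single ?_⟩
      rw [hσ]; exact hL
    · cases hσ1 : σ (a + 1) with
      | true =>
        obtain ⟨z, hzZ, hxz, Z', hFS⟩ := h.step (by omega)
        obtain ⟨t, ht, hT⟩ := (ih (n - 1) (by omega) (a + 1) (by omega) (by omega)).2 hσ1
          _ _ _ _ _ _ hFS (by omega) (by omega)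
        have hzA := h.sub hzZ
        have hxz' : x ≠ z := by rintro rfl; exact h.xA hzA
        refine ⟨t, ht, Traj.cons (S1 := ∅) (by omega)
          (Letter.single ∅ ⟨fun _ => hxz, fun hf => by rw [hσ] at hf; exact absurd hf (by simp)⟩)
          hT hxz' ?_ (by simp) (by simp) (by simp) ?_ ?_⟩
        · rintro ⟨h1, _⟩
          exact h.xA (Finset.mem_of_mem_erase h1)
        · rintro v ⟨h1, h2⟩
          exact ⟨Finset.mem_of_mem_erase h1, h2⟩
        · exact ⟨hzA, h.disj z hzZ⟩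
      | false =>
        rcases h.fork with ⟨A', X, ξ, j', S1, g1, g2, g3, g4, g5, g6⟩ |
            ⟨A', X, ξ, u, j', S1, S2, g1, g2, g3, g4, g5, g6, g7, g8, g9, g10, g11⟩
        · obtain ⟨t, ht, hT⟩ := (ih (n - 1) (by omega) (a + 1) (by omega) (by omega)).1
            _ _ _ _ _ g4 (by omega) (by omega)
          have hξA' : ξ ∈ A' := g4.sub g4.mem
          have hxξ : x ≠ ξ := by rintro rfl; exact h.xA (g3 hξA')
          refine ⟨t, ht, Traj.cons (S1 := S1) (by omega) (by rw [hσ]; exact g5) hT hxξ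
            ?_ ?_ ?_ ?_ ?_ ?_⟩
          · rintro ⟨h1, _⟩; exact h.xA (g3 h1)
          · intro h1; exact (g6 ξ h1).2.1 hξA'
          · rintro v h1 ⟨h2, _⟩; exact (g6 v h1).2.1 h2
          · intro v h1; exact ⟨(g6 v h1).1, (g6 v h1).2.2⟩
          · rintro v ⟨h1, h2, _⟩; exact ⟨g3 h1, h2⟩
          · exact ⟨g3 hξA', g4.disj ξ g4.mem⟩
        · have hn3 : 3 ≤ n := by
            by_contra hlt
            have : k - 1 = a + 1 := by omega
            rw [this, hσ1] at hlast
            exact absurd hlast (by simp)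
          obtain ⟨t, ht, hT⟩ := (ih (n - 2) (by omega) (a + 1 + 1) (by omega) (by omega)).1
            _ _ _ _ _ g4 (by omega) (by omega)
          have huA' : u ∈ A' := g4.sub g4.mem
          have hT2 : Traj adj σ (a + 1) k ξ t (S2 ∪ {v | v ∈ A' ∧ v ∉ T}) := by
            refine Traj.cons (S1 := S2) (by omega) (by rw [hσ1]; exact g6) hT
              ?_ ?_ ?_ ?_ ?_ ?_ ?_
            · rintro rfl; exact g10 huA'
            · rintro ⟨h1, _⟩; exact g10 h1
            · intro h1; exact (g8 u h1).2.1 huA'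
            · rintro v h1 ⟨h2, _⟩; exact (g8 v h1).2.1 h2
            · exact Set.subset_union_left
            · rintro v ⟨h1, h2, _⟩; exact Or.inr ⟨h1, h2⟩
            · exact Or.inr ⟨huA', g4.disj u g4.mem⟩
          refine ⟨t, ht, Traj.cons (S1 := S1) (by omega) (by rw [hσ]; exact g5) hT2
            ?_ ?_ ?_ ?_ ?_ ?_ ?_⟩
          · rintro rfl; exact h.xA g9
          · rintro (h1 | ⟨h1, _⟩)
            · exact h.xA (g8 x h1).1
            · exact h.xA (g3 h1)
          · intro h1; exact (g7 ξ h1).2.2.2.2 rfl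
          · rintro v h1 (h2 | ⟨h2, _⟩)
            · exact (g7 v h1).2.2.2.1 h2
            · exact (g7 v h1).2.1 h2
          · intro v h1; exact ⟨(g7 v h1).1, (g7 v h1).2.2.1⟩
          · rintro v (h1 | ⟨h1, h2⟩)
            · exact ⟨(g8 v h1).1, (g8 v h1).2.2.1⟩
            · exact ⟨g3 h1, h2⟩
          · exact ⟨g9, g11⟩
  refine ⟨?_, hb⟩
  intro A X u j d h hnj hd
  obtain ⟨d, rfl⟩ : ∃ d', d = d' + 1 := ⟨d - 1, by omega⟩
  cases hσ : σ a with
  | true =>
    obtain ⟨Z, hFS⟩ := h.toFS (by omega)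
    obtain ⟨t, ht, hT⟩ := hb hσ _ _ _ _ _ _ hFS hnj (by omega)
    refine ⟨t, ht, hT.mono ?_⟩
    rintro v ⟨h1, h2⟩
    rw [Finset.mem_erase] at h1
    exact ⟨h1.2, h2, h1.1⟩
  | false =>
    have hn2 : 2 ≤ n := by
      by_contra hlt
      have : k - 1 = a := by omega
      rw [this, hσ] at hlast
      exact absurd hlast (by simp)
    obtain ⟨u1, hu1u, hu1A, hu1T, X', hIS⟩ := h.step (by omega)
    obtain ⟨t, ht, hT⟩ := (ih (n - 1) (by omega) (a + 1) (by omega) (by omega)).1
      _ _ _ _ _ hIS (by omega) (by omega)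
    rw [Finset.mem_erase] at hu1A
    refine ⟨t, ht, Traj.cons (S1 := ∅) (by omega)
      (Letter.single ∅ ⟨fun hf => by rw [hσ] at hf; exact absurd hf (by simp), fun _ => hu1u⟩)
      hT (Ne.symm hu1A.1) ?_ (by simp) (by simp) (by simp) ?_ ?_⟩
    · rintro ⟨h1, _⟩
      simp at h1
    · rintro v ⟨h1, h2, _⟩
      rw [Finset.mem_erase] at h1
      exact ⟨h1.2, h2, h1.1⟩
    · exact ⟨hu1A.2, hu1T, hu1A.1⟩

end Pool.Agent.J6H69.Mader
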