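import Pool.Agent.J6H69.Mader.Ind

set_option autoImplicit false

/-!
# A region with many exits, all of which lead to one vertex outside the region
-/

namespace Pool.Agent.J6H69.Mader

open Relation Finset
open scoped Classical

variable {V : Type*} [Fintype V] {adj : V → V → Prop}

lemma exists_region (C : Finset V) (hC : C.Nonempty) (m : ℕ)
    (hm : (nb adj Finset.univ C).card ≤ m) :
    ∃ X, X ⊆ C ∧ X.Nonempty ∧ (nb adj Finset.univ X).card ≤ m ∧
      ∀ Y, Y ⊆ X → Y.Nonempty → Y ≠ X → m + 1 ≤ (nb adj Finset.univ Y).card := by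
  set F : Finset (Finset V) := C.powerset.filter
    (fun Y => Y.Nonempty ∧ (nb adj Finset.univ Y).card ≤ m) with hF
  have hFne : F.Nonempty :=
    ⟨C, by rw [hF, Finset.mem_filter, Finset.mem_powerset]; exact ⟨Finset.Subset.refl _, hC, hm⟩⟩
  obtain ⟨X, hXF, hmin⟩ := Finset.exists_min_image F Finset.card hFne
  rw [hF, Finset.mem_filter, Finset.mem_powerset] at hXF
  obtain ⟨h1, h2, h3⟩ := hXF
  refine ⟨X, h1, h2, h3, ?_⟩
  intro Y hY hne hYX
  by_contra hlt
  have hYF : Y ∈ F := by
    rw [hF, Finset.mem_filter, Finset.mem_powerset]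
    exact ⟨hY.trans h1, hne, by omega⟩
  exact hYX (Finset.eq_of_subset_of_card_le hY (hmin Y hYF))

/-- `X` has exactly `j` exits, all its proper nonempty subsets have more. -/
def Atom (adj : V → V → Prop) (X : Finset V) (j : ℕ) : Prop :=
  X.Nonempty ∧ (nb adj Finset.univ X).card = j ∧
    ∀ Y, Y ⊆ X → Y.Nonempty → Y ≠ X → j + 1 ≤ (nb adj Finset.univ Y).card

lemma region_step {K : ℕ} (hK : ∀ v, K ≤ (outA adj Finset.univ v).card) {X : Finset V} {j : ℕ}
    (hX : Atom adj X j) (hjK : j < K) {y : V} (hy : y ∈ X)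
    (hreach : ∀ e ∈ nb adj Finset.univ X,
      ReflTransGen (fun a b => adj a b ∧ (b ∉ X ∨ b = y)) e y) :
    ∃ X', Atom adj X' (j + 1) ∧ y ∉ X' ∧ X' ⊆ X ∧
      (∀ e ∈ nb adj Finset.univ X', ReflTransGen (fun a b => adj a b ∧ b ∉ X') e y) ∧
      (∀ z ∈ X', ReflTransGen (fun a b => adj a b) y z) := by
  obtain ⟨hne, hcard, hatom⟩ := hX
  have hC : (X.erase y).Nonempty := by
    obtain ⟨v, hvX, hvy, _⟩ := exists_inner (adj := adj) (A := Finset.univ) hy (by
      have := hK y; omega)
    exact ⟨v, Finset.mem_erase.mpr ⟨hvy, hvX⟩⟩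
  have hCm : (nb adj Finset.univ (X.erase y)).card ≤ j + 1 := by
    have hsub : nb adj Finset.univ (X.erase y) ⊆ insert y (nb adj Finset.univ X) := by
      intro v hv
      rw [mem_nb] at hv
      obtain ⟨_, g2, w, hw, hwv⟩ := hv
      by_cases hvy : v = y
      · rw [hvy]; exact Finset.mem_insert_self _ _
      · apply Finset.mem_insert_of_mem
        rw [mem_nb]
        refine ⟨Finset.mem_univ _, ?_, w, Finset.mem_of_mem_erase hw, hwv⟩
        intro hvX
        exact g2 (Finset.mem_erase.mpr ⟨hvy, hvX⟩)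
    have h1 := (Finset.card_le_card hsub).trans (Finset.card_insert_le _ _)
    omega
  obtain ⟨X', hX'C, hX'ne, hX'card, hX'atom⟩ := exists_region (adj := adj) (X.erase y) hC (j + 1) hCm
  have hX'X : X' ⊆ X := hX'C.trans (Finset.erase_subset _ _)
  have hyX' : y ∉ X' := fun h => absurd (hX'C h) (by simp)
  have hX'neX : X' ≠ X := by rintro rfl; exact hyX' hy
  have hX'card' : (nb adj Finset.univ X').card = j + 1 :=
    le_antisymm hX'card (hatom X' hX'X hX'ne hX'neX)
  refine ⟨X', ⟨hX'ne, hX'card', hX'atom⟩, hyX', hX'X, ?_, ?_⟩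
  · intro e he
    have he' := mem_nb.mp he
    -- either all vertices reachable from `e` outside `X'` are in `X`, or an exit of `X` is reached
    by_cases hcase : ∃ b ∈ nb adj Finset.univ X, ReflTransGen (fun a b => adj a b ∧ b ∉ X') e b
    · obtain ⟨b, hb, hp⟩ := hcase
      refine hp.trans (rtg_mono (hreach b hb) ?_)
      rintro p q ⟨h1, h2⟩
      refine ⟨h1, ?_⟩
      rcases h2 with h2 | h2
      · exact fun h => h2 (hX'X h)
      · rw [h2]; exact hyX'
    · push Not at hcase
      have heX : e ∈ X := by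
        by_contra heX
        apply hcase e _ ReflTransGen.refl
        rw [mem_nb]
        obtain ⟨w, hw, hwe⟩ := he'.2.2
        exact ⟨Finset.mem_univ _, heX, w, hX'X hw, hwe⟩
      have hin : ∀ v, ReflTransGen (fun a b => adj a b ∧ b ∉ X') e v → v ∈ X := by
        intro v hv
        induction hv with
        | refl => exact heX
        | @tail b c hb hbc ih =>
          by_contra hcX
          apply hcase c _ (hb.tail hbc)
          rw [mem_nb]
          exact ⟨Finset.mem_univ _, hcX, b, ih, hbc.1⟩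
      set R : Finset V := Finset.univ.filter
        (fun v => ReflTransGen (fun a b => adj a b ∧ b ∉ X') e v) with hR
      have hmemR : ∀ v, v ∈ R ↔ ReflTransGen (fun a b => adj a b ∧ b ∉ X') e v := by
        intro v; simp [hR]
      have hYX : X' ∪ R ⊆ X := by
        intro v hv
        rcases Finset.mem_union.mp hv with h | h
        · exact hX'X h
        · exact hin v ((hmemR v).mp h)
      have hYeq : X' ∪ R = X := by
        by_contra hneq
        have h1 := hatom _ hYX (hX'ne.mono Finset.subset_union_left) hneq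
        have hsub : nb adj Finset.univ (X' ∪ R) ⊆ (nb adj Finset.univ X').erase e := by
          intro v hv
          rw [mem_nb] at hv
          obtain ⟨_, g2, w, hw, hwv⟩ := hv
          rw [Finset.mem_union, not_or] at g2
          refine Finset.mem_erase.mpr ⟨?_, ?_⟩
          · rintro rfl
            exact g2.2 ((hmemR v).mpr ReflTransGen.refl)
          · rw [mem_nb]
            refine ⟨Finset.mem_univ _, g2.1, ?_⟩
            rcases Finset.mem_union.mp hw with h | h
            · exact ⟨w, h, hwv⟩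
            · exfalso
              exact g2.2 ((hmemR v).mpr (((hmemR w).mp h).tail ⟨hwv, g2.1⟩))
        have h2 := Finset.card_le_card hsub
        rw [Finset.card_erase_of_mem he] at h2
        omega
      have hyY : y ∈ X' ∪ R := by rw [hYeq]; exact hy
      rcases Finset.mem_union.mp hyY with h | h
      · exact absurd h hyX'
      · exact (hmemR y).mp h
  · intro z hz
    set R : Finset V := X.filter (fun v => ReflTransGen (fun a b => adj a b ∧ b ∈ X) y v) with hR
    have hyR : y ∈ R := by rw [hR, Finset.mem_filter]; exact ⟨hy, ReflTransGen.refl⟩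
    have hReq : R = X := by
      by_contra hneq
      have h1 := hatom R (Finset.filter_subset _ _) ⟨y, hyR⟩ hneq
      have hsub : nb adj Finset.univ R ⊆ nb adj Finset.univ X := by
        intro v hv
        rw [mem_nb] at hv ⊢
        obtain ⟨_, g2, w, hw, hwv⟩ := hv
        rw [hR, Finset.mem_filter] at hw
        refine ⟨Finset.mem_univ _, ?_, w, hw.1, hwv⟩
        intro hvX
        apply g2
        rw [hR, Finset.mem_filter]
        exact ⟨hvX, hw.2.tail ⟨hwv, hvX⟩⟩
      have h2 := Finset.card_le_card hsub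
      omega
    have hzR : z ∈ R := by rw [hReq]; exact hX'X hz
    rw [hR, Finset.mem_filter] at hzR
    exact rtg_mono hzR.2 (fun _ _ h => h.1)

lemma first_entry {X : Finset V} {y : V} (hy : y ∉ X) {z : V} (hz : z ∈ X)
    (h : ReflTransGen (fun a b => adj a b) y z) :
    ∃ y' ∈ X, ReflTransGen (fun a b => adj a b ∧ (b ∉ X ∨ b = y')) y y' := by
  by_contra hcon
  push Not at hcon
  have gen : ∀ w, ReflTransGen (fun a b => adj a b) y w →
      w ∉ X ∧ ReflTransGen (fun a b => adj a b ∧ b ∉ X) y w := by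
    intro w hw
    induction hw with
    | refl => exact ⟨hy, ReflTransGen.refl⟩
    | @tail b c _ hbc ih =>
      by_cases hc : c ∈ X
      · exfalso
        exact hcon c hc ((rtg_mono ih.2 (fun _ _ h => ⟨h.1, Or.inl h.2⟩)).tail ⟨hbc, Or.inr rfl⟩)
      · exact ⟨hc, ih.2.tail ⟨hbc, hc⟩⟩
  exact (gen z h).1 hz

lemma region_chain [Nonempty V] {K : ℕ} (hK : ∀ v, K ≤ (outA adj Finset.univ v).card) :
    ∀ j, j ≤ K → ∃ X, Atom adj X j ∧ ∃ y ∈ X, ∀ e ∈ nb adj Finset.univ X,
      ReflTransGen (fun a b => adj a b ∧ (b ∉ X ∨ b = y)) e y := by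
  intro j
  induction j with
  | zero =>
    intro _
    have h0 : (nb adj Finset.univ (Finset.univ : Finset V)).card ≤ 0 := by
      rw [Nat.le_zero, Finset.card_eq_zero]
      ext v
      rw [mem_nb]
      simp
    obtain ⟨X, _, h2, h3, h4⟩ := exists_region (adj := adj) Finset.univ Finset.univ_nonempty 0 h0
    obtain ⟨y, hy⟩ := h2
    refine ⟨X, ⟨⟨y, hy⟩, by omega, h4⟩, y, hy, ?_⟩
    intro e he
    have : (nb adj Finset.univ X) = ∅ := by
      rw [← Finset.card_eq_zero]; omega
    rw [this] at he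
    simp at he
  | succ j ih =>
    intro hj
    obtain ⟨X, hX, y, hy, hr⟩ := ih (by omega)
    obtain ⟨X', hX', hyX', _, h4, h5⟩ := region_step hK hX (by omega) hy hr
    obtain ⟨z, hz⟩ := hX'.1
    obtain ⟨y', hy', hp⟩ := first_entry hyX' hz (h5 z hz)
    refine ⟨X', hX', y', hy', ?_⟩
    intro e he
    exact (rtg_mono (h4 e he) (fun _ _ h => ⟨h.1, Or.inl h.2⟩)).trans hp

/-- A region with `J` exits, all of which lead to one vertex outside the region. -/
theorem phase1 [Nonempty V] {K : ℕ} (hK : ∀ v, K ≤ (outA adj Finset.univ v).card) {J : ℕ}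
    (hJ1 : 1 ≤ J) (hJK : J ≤ K) :
    ∃ X h, Atom adj X J ∧ h ∉ X ∧
      ∀ e ∈ nb adj Finset.univ X, ReflTransGen (fun a b => adj a b ∧ b ∉ X) e h := by
  obtain ⟨j, rfl⟩ : ∃ j, J = j + 1 := ⟨J - 1, by omega⟩
  obtain ⟨X, hX, y, hy, hr⟩ := region_chain hK j (by omega)
  obtain ⟨X', hX', hyX', _, h4, _⟩ := region_step hK hX (by omega) hy hr
  exact ⟨X', y, hX', hyX', h4⟩

/-- The closed trajectory for a cyclic word beginning with `-` and ending with `+`. -/
theorem closed_traj [Nonempty V] (σ : ℕ → Bool) (k : ℕ) (hk : 2 ≤ k) (h0 : σ 0 = false)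
    (hlast : σ (k - 1) = true) (hK : ∀ v, 3 * k ≤ (outA adj Finset.univ v).card) :
    ∃ t, Traj adj σ 0 k t t Set.univ := by
  obtain ⟨X, h, ⟨hXne, hXcard, hXatom⟩, hhX, hreach⟩ := phase1 (adj := adj) hK (J := k)
    (by omega) (by omega)
  obtain ⟨e1, he1⟩ : (nb adj Finset.univ X).Nonempty := by
    rw [← Finset.card_pos]; omega
  obtain ⟨_, he1X, u1, hu1, hu1e⟩ := mem_nb.mp he1
  obtain ⟨n, q, q0, qn, qs, qi⟩ := exists_simple (hreach e1 he1)
  set T : Set V := {v | ∃ i, i ≤ n ∧ q i = v} with hT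
  have hqT : ∀ i, i ≤ n → q i ∈ T := fun i hi => ⟨i, hi, rfl⟩
  have he1T : e1 ∈ T := ⟨0, by omega, q0⟩
  have hhT : h ∈ T := ⟨n, le_refl _, qn⟩
  have hTX : ∀ v ∈ T, v ∉ X := by
    rintro v ⟨i, hi, rfl⟩
    rcases Nat.eq_zero_or_pos i with h1 | h1
    · rw [h1, q0]; exact he1X
    · obtain ⟨i', rfl⟩ : ∃ i', i = i' + 1 := ⟨i - 1, by omega⟩
      exact (qs i' (by omega)).2
  have hIS : IS adj T (Finset.univ.erase e1) X u1 (k - 1) (3 * k - 1) := by
    refine ⟨?_, hu1, ?_, ?_, ?_, ?_, ?_⟩
    · intro v hv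
      refine Finset.mem_erase.mpr ⟨?_, Finset.mem_univ _⟩
      rintro rfl; exact he1X hv
    · have : nb adj (Finset.univ.erase e1) X = (nb adj Finset.univ X).erase e1 := by
        ext v
        rw [Finset.mem_erase, mem_nb, mem_nb, Finset.mem_erase]
        tauto
      rw [this, Finset.card_erase_of_mem he1, hXcard]
    · intro Y hY hne hYX
      have h1 := hXatom Y hY hne hYX
      have h2 := nb_erase_card (adj := adj) Finset.univ Y e1
      omega
    · intro e he
      have he' : e ∈ nb adj Finset.univ X := by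
        rw [mem_nb] at he ⊢
        exact ⟨Finset.mem_univ _, he.2⟩
      by_contra hbad
      have hbad' : ∀ t ∈ T, ¬ ReflTransGen (fun u v => u ∉ T ∧ adj u v ∧
          (v ∈ T ∨ (v ∈ Finset.univ.erase e1 ∧ v ∉ X))) e t := by
        intro t ht hp
        exact hbad ⟨t, ht, hp⟩
      have gen : ∀ v, ReflTransGen (fun a b => adj a b ∧ b ∉ X) e v → v ∉ T ∧
          ReflTransGen (fun u v => u ∉ T ∧ adj u v ∧
            (v ∈ T ∨ (v ∈ Finset.univ.erase e1 ∧ v ∉ X))) e v := by
        intro v hv
        induction hv with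
        | refl => exact ⟨fun h => hbad' e h ReflTransGen.refl, ReflTransGen.refl⟩
        | @tail b c _ hbc ih =>
          have hstep : ReflTransGen (fun u v => u ∉ T ∧ adj u v ∧
            (v ∈ T ∨ (v ∈ Finset.univ.erase e1 ∧ v ∉ X))) e c := by
            refine ih.2.tail ⟨ih.1, hbc.1, ?_⟩
            by_cases hcT : c ∈ T
            · exact Or.inl hcT
            · right
              refine ⟨Finset.mem_erase.mpr ⟨?_, Finset.mem_univ _⟩, hbc.2⟩
              rintro rfl; exact hcT he1T
          exact ⟨fun h => hbad' c h hstep, hstep⟩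
      exact (gen h (hreach e he')).1 hhT
    · intro x _
      have h1 := hK x
      have h2 := outA_erase_card (adj := adj) Finset.univ x e1
      omega
    · intro x hx hxT
      exact hTX x hxT hx
  obtain ⟨t, ht, hTr⟩ := (main_ind (adj := adj) (T := T) σ k hlast (k - 1) 1 (by omega)
    (by omega)).1 _ _ _ _ _ hIS (by omega) (by omega)
  obtain ⟨m, hm, rfl⟩ := ht
  have hback : ∀ i, i ≤ n → ReflTransGen (fun a b => adj b a ∧ b ∈ T) (q i) e1 := by
    intro i
    induction i with
    | zero => intro _; rw [q0]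
    | succ i ih =>
      intro hi
      refine ReflTransGen.head ⟨(qs i (by omega)).1, hqT i (by omega)⟩ (ih (by omega))
  have hL : Letter adj false (q m) u1 (T \ {q m}) :=
    (Letter.backward (hback m hm) hu1e).remove_start
  refine ⟨q m, Traj.cons (S1 := T \ {q m}) (by omega) (by rw [h0]; exact hL) hTr ?_ ?_ ?_ ?_
    (Set.subset_univ _) (Set.subset_univ _) (Set.mem_univ _)⟩
  · rintro he
    exact hTX (q m) (hqT m hm) (by rw [he]; exact hu1)
  · rintro ⟨_, h2, _⟩
    exact h2 (hqT m hm)
  · rintro ⟨h1, _⟩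
    exact hTX u1 h1 hu1
  · rintro v ⟨h1, _⟩ ⟨_, h3, _⟩
    exact h3 h1

end Pool.Agent.J6H69.Mader
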