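import Pool.Agent.J6H69.Mader.Basic

set_option autoImplicit false

/-!
# Regions, exits, and the basic moves

`nb adj A Y` is the set of out-neighbours of `Y` outside `Y` and inside the arena `A`.
-/

namespace Pool.Agent.J6H69.Mader

open Relation Finset
open scoped Classical

variable {V : Type*}

lemma rtg_mono {r s : V → V → Prop} {a b : V} (h : ReflTransGen r a b)
    (hrs : ∀ x y, r x y → s x y) : ReflTransGen s a b :=
  ReflTransGen.mono hrs _ _ h

/-- Out-neighbours of `Y` outside `Y` that belong to the arena `A`. -/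
noncomputable def nb (adj : V → V → Prop) (A Y : Finset V) : Finset V :=
  A.filter (fun v => v ∉ Y ∧ ∃ u ∈ Y, adj u v)

/-- Out-neighbours of `x` (other than `x`) in the arena `A`. -/
noncomputable def outA (adj : V → V → Prop) (A : Finset V) (x : V) : Finset V :=
  A.filter (fun v => v ≠ x ∧ adj x v)

variable {adj : V → V → Prop} {T : Set V}

lemma mem_nb {A Y : Finset V} {v : V} :
    v ∈ nb adj A Y ↔ v ∈ A ∧ v ∉ Y ∧ ∃ u ∈ Y, adj u v := by
  simp [nb]

lemma mem_outA {A : Finset V} {x v : V} : v ∈ outA adj A x ↔ v ∈ A ∧ v ≠ x ∧ adj x v := by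
  simp [outA]

lemma nb_erase_card (A Y : Finset V) (u : V) :
    (nb adj A Y).card ≤ (nb adj (A.erase u) Y).card + 1 := by
  have h : nb adj A Y ⊆ insert u (nb adj (A.erase u) Y) := by
    intro v hv
    rw [mem_nb] at hv
    by_cases hvu : v = u
    · simp [hvu]
    · apply Finset.mem_insert_of_mem
      rw [mem_nb]
      exact ⟨Finset.mem_erase.mpr ⟨hvu, hv.1⟩, hv.2⟩
  exact (Finset.card_le_card h).trans (Finset.card_insert_le _ _)

lemma outA_erase_card (A : Finset V) (x u : V) :
    (outA adj A x).card ≤ (outA adj (A.erase u) x).card + 1 := by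
  have h : outA adj A x ⊆ insert u (outA adj (A.erase u) x) := by
    intro v hv
    rw [mem_outA] at hv
    by_cases hvu : v = u
    · simp [hvu]
    · apply Finset.mem_insert_of_mem
      rw [mem_outA]
      exact ⟨Finset.mem_erase.mpr ⟨hvu, hv.1⟩, hv.2⟩
  exact (Finset.card_le_card h).trans (Finset.card_insert_le _ _)

/-- If `x ∈ X` has more out-neighbours in the arena than `X` has exits, it has an out-neighbour
in `X`. -/
lemma exists_inner {A X : Finset V} {x : V} (hx : x ∈ X)
    (h : (nb adj A X).card < (outA adj A x).card) : ∃ v ∈ X, v ≠ x ∧ adj x v := by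
  by_contra hcon
  push Not at hcon
  have hsub : outA adj A x ⊆ nb adj A X := by
    intro v hv
    rw [mem_outA] at hv
    rw [mem_nb]
    refine ⟨hv.1, ?_, x, hx, hv.2.2⟩
    intro hvX
    exact hcon v hvX hv.2.1 hv.2.2
  exact absurd (Finset.card_le_card hsub) (by omega)

/-- The vertices of `C` reachable from `x` through `C`. -/
noncomputable def rset (adj : V → V → Prop) (C : Finset V) (x : V) : Finset V :=
  C.filter (fun v => ReflTransGen (fun a b => adj a b ∧ b ∈ C) x v)

lemma mem_rset {C : Finset V} {x v : V} :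
    v ∈ rset adj C x ↔ v ∈ C ∧ ReflTransGen (fun a b => adj a b ∧ b ∈ C) x v := by
  simp [rset]

lemma rset_sub (C : Finset V) (x : V) : rset adj C x ⊆ C := by
  intro v hv; exact (mem_rset.mp hv).1

lemma rset_closed {C : Finset V} {x v w : V} (hv : v ∈ rset adj C x) (h : adj v w)
    (hw : w ∈ C) : w ∈ rset adj C x := by
  rw [mem_rset] at hv ⊢
  exact ⟨hw, hv.2.tail ⟨h, hw⟩⟩

lemma rset_first {C : Finset V} {x w : V} (h : adj x w)
    (hw : w ∈ C) : w ∈ rset adj C x := by
  rw [mem_rset]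
  exact ⟨hw, ReflTransGen.single ⟨h, hw⟩⟩

lemma rset_reach {C : Finset V} {x v : V}
    (hv : ReflTransGen (fun a b => adj a b ∧ b ∈ C) x v) :
    ReflTransGen (fun a b => adj a b ∧ b ∈ rset adj C x) x v := by
  induction hv with
  | refl => exact ReflTransGen.refl
  | @tail b c hb hbc ih =>
    refine ih.tail ⟨hbc.1, ?_⟩
    rw [mem_rset]
    exact ⟨hbc.2, hb.tail hbc⟩

/-- The exit `e` leads to the target `T` outside the region `X` (and inside the arena, until the
target is met). -/
def Good (adj : V → V → Prop) (T : Set V) (A X : Finset V) (e : V) : Prop :=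
  ∃ t ∈ T, ReflTransGen (fun u v => u ∉ T ∧ adj u v ∧ (v ∈ T ∨ (v ∈ A ∧ v ∉ X))) e t

lemma Good.mono {A X A' X' : Finset V} {e : V} (h : Good adj T A X e)
    (hs : ∀ v, v ∈ A → v ∉ X → v ∈ A' ∧ v ∉ X') : Good adj T A' X' e := by
  obtain ⟨t, ht, hp⟩ := h
  refine ⟨t, ht, rtg_mono hp ?_⟩
  rintro a b ⟨h1, h2, h3⟩
  exact ⟨h1, h2, h3.imp id (fun h => hs b h.1 h.2)⟩

/-- State of the construction with the current vertex `u` inside the region `X`: `X` has `j` exits
inside the arena `A`, all its proper nonempty subsets have more, and all exits are good. -/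
structure IS (adj : V → V → Prop) (T : Set V) (A X : Finset V) (u : V) (j d : ℕ) : Prop where
  sub : X ⊆ A
  mem : u ∈ X
  card : (nb adj A X).card = j
  atom : ∀ Y, Y ⊆ X → Y.Nonempty → Y ≠ X → j + 1 ≤ (nb adj A Y).card
  good : ∀ e ∈ nb adj A X, Good adj T A X e
  deg : ∀ x ∈ X, d ≤ (outA adj A x).card
  disj : ∀ x ∈ X, x ∉ T

/-- State of the construction with the current vertex `x` outside the arena. -/
structure FS (adj : V → V → Prop) (T : Set V) (A Z : Finset V) (x : V) (j d B : ℕ) : Prop where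
  sub : Z ⊆ A
  ne : Z.Nonempty
  xA : x ∉ A
  xT : x ∉ T
  reach : ∀ z ∈ Z, ReflTransGen (fun u v => adj u v ∧ v ∈ Z) x z
  cut : ∀ Y, Y ⊆ Z → Y.Nonempty → j ≤ (nb adj A Y).card
  cardB : (nb adj A Z).card ≤ B
  good : ∀ e ∈ nb adj A Z, Good adj T A Z e
  deg : ∀ z ∈ Z, d ≤ (outA adj A z).card
  disj : ∀ z ∈ Z, z ∉ T

/-- Common part of the two ways to enter an `FS` state. -/
lemma mkFS {A C : Finset V} {x : V} {j d B : ℕ} (hCA : C ⊆ A) (hxC : x ∉ C) (hxT : x ∉ T)
    (hxA : x ∈ A)
    (hw : ∃ w ∈ C, adj x w)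
    (cut : ∀ Y, Y ⊆ C → Y.Nonempty → j + 1 ≤ (nb adj A Y).card)
    (cardB : (nb adj A (insert x C)).card ≤ B)
    (good : ∀ e ∈ nb adj A (insert x C), Good adj T A (insert x C) e)
    (deg : ∀ z ∈ C, d + 1 ≤ (outA adj A z).card)
    (disj : ∀ z ∈ C, z ∉ T) :
    FS adj T (A.erase x) (rset adj C x) x j d B := by
  have hsub := rset_sub (adj := adj) C x
  have hexit : ∀ e, e ∈ nb adj (A.erase x) (rset adj C x) → e ∈ nb adj A (insert x C) := by
    intro e he
    rw [mem_nb] at he ⊢
    obtain ⟨h1, h2, u, hu, hue⟩ := he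
    rw [Finset.mem_erase] at h1
    refine ⟨h1.2, ?_, u, Finset.mem_insert_of_mem (hsub hu), hue⟩
    intro hc
    rcases Finset.mem_insert.mp hc with h3 | h3
    · exact h1.1 h3
    · exact h2 (rset_closed hu hue h3)
  refine ⟨?_, ?_, ?_, hxT, ?_, ?_, ?_, ?_, ?_, ?_⟩
  · intro v hv
    have hvC := hsub hv
    refine Finset.mem_erase.mpr ⟨?_, hCA hvC⟩
    rintro rfl
    exact hxC hvC
  · obtain ⟨w, hwC, hw⟩ := hw
    exact ⟨w, rset_first hw hwC⟩
  · simp
  · intro z hz
    exact rset_reach (mem_rset.mp hz).2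
  · intro Y hY hne
    have h1 := cut Y (hY.trans hsub) hne
    have h2 := nb_erase_card (adj := adj) A Y x
    omega
  · exact (Finset.card_le_card hexit).trans cardB
  · intro e he
    refine (good e (hexit e he)).mono ?_
    intro v hvA hvX
    rw [Finset.mem_insert, not_or] at hvX
    exact ⟨Finset.mem_erase.mpr ⟨hvX.1, hvA⟩, fun h => hvX.2 (hsub h)⟩
  · intro z hz
    have h1 := deg z (hsub hz)
    have h2 := outA_erase_card (adj := adj) A z x
    omega
  · intro z hz
    exact disj z (hsub hz)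

lemma IS.toFS {A X : Finset V} {u : V} {j d : ℕ} (h : IS adj T A X u j (d + 1))
    (hd : j ≤ d) : ∃ Z, FS adj T (A.erase u) Z u j d j := by
  have hins : insert u (X.erase u) = X := Finset.insert_erase h.mem
  refine ⟨_, mkFS (C := X.erase u) ((Finset.erase_subset _ _).trans h.sub) (by simp)
    (h.disj u h.mem) (h.sub h.mem) ?_ ?_ ?_ ?_ ?_ ?_⟩
  · have h1 := h.deg u h.mem
    have h2 := h.card
    obtain ⟨v, hvX, hvu, huv⟩ := exists_inner (adj := adj) (A := A) h.mem (by omega)
    exact ⟨v, Finset.mem_erase.mpr ⟨hvu, hvX⟩, huv⟩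
  · intro Y hY hne
    refine h.atom Y (hY.trans (Finset.erase_subset _ _)) hne ?_
    rintro rfl
    exact absurd (hY h.mem) (by simp)
  · rw [hins, h.card]
  · rw [hins]; exact h.good
  · intro z hz
    exact h.deg z (Finset.mem_of_mem_erase hz)
  · intro z hz
    exact h.disj z (Finset.mem_of_mem_erase hz)

lemma FS.step {A Z : Finset V} {x : V} {j d B : ℕ} (h : FS adj T A Z x (j + 1) (d + 1) B)
    (hd : B ≤ d) : ∃ z ∈ Z, adj x z ∧ ∃ Z', FS adj T (A.erase z) Z' z j d B := by
  obtain ⟨z0, hz0⟩ := h.ne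
  obtain ⟨z, hz, hxz⟩ : ∃ z ∈ Z, adj x z := by
    rcases (h.reach z0 hz0).cases_head with he | ⟨c, hc, _⟩
    · exact absurd (h.sub hz0) (by rw [← he]; exact h.xA)
    · exact ⟨c, hc.2, hc.1⟩
  have hins : insert z (Z.erase z) = Z := Finset.insert_erase hz
  refine ⟨z, hz, hxz, _, mkFS (C := Z.erase z) ((Finset.erase_subset _ _).trans h.sub) (by simp)
    (h.disj z hz) (h.sub hz) ?_ ?_ ?_ ?_ ?_ ?_⟩
  · have h1 := h.deg z hz
    have h2 := h.cardB
    obtain ⟨v, hvX, hvu, huv⟩ := exists_inner (adj := adj) (A := A) hz (by omega)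
    exact ⟨v, Finset.mem_erase.mpr ⟨hvu, hvX⟩, huv⟩
  · intro Y hY hne
    exact h.cut Y (hY.trans (Finset.erase_subset _ _)) hne
  · rw [hins]; exact h.cardB
  · rw [hins]; exact h.good
  · intro w hw
    exact h.deg w (Finset.mem_of_mem_erase hw)
  · intro w hw
    exact h.disj w (Finset.mem_of_mem_erase hw)

lemma FS.final {A Z : Finset V} {x : V} {j d B : ℕ} (h : FS adj T A Z x (j + 1) d B) :
    ∃ t ∈ T, Letter adj true x t {v | v ∈ A ∧ v ∉ T} := by
  have hc := h.cut Z (Finset.Subset.refl _) h.ne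
  obtain ⟨e, he⟩ : (nb adj A Z).Nonempty := by
    rw [← Finset.card_pos]; omega
  obtain ⟨t, ht, hp⟩ := h.good e he
  rw [mem_nb] at he
  obtain ⟨heA, heZ, z, hz, hze⟩ := he
  have hzt : ReflTransGen (fun u v => u ∉ T ∧ adj u v ∧ (v ∈ T ∨ v ∈ A)) x t := by
    have h1 : ReflTransGen (fun u v => u ∉ T ∧ adj u v ∧ (v ∈ T ∨ v ∈ A)) x z := by
      have := h.reach z hz
      have gen : ∀ w, ReflTransGen (fun u v => adj u v ∧ v ∈ Z) x w →
          w ∉ T ∧ ReflTransGen (fun u v => u ∉ T ∧ adj u v ∧ (v ∈ T ∨ v ∈ A)) x w := by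
        intro w hw
        induction hw with
        | refl => exact ⟨h.xT, ReflTransGen.refl⟩
        | tail _ hbc ih =>
          exact ⟨h.disj _ hbc.2, ih.2.tail ⟨ih.1, hbc.1, Or.inr (h.sub hbc.2)⟩⟩
      exact (gen z this).2
    refine (h1.tail ⟨h.disj z hz, hze, Or.inr heA⟩).trans (rtg_mono hp ?_)
    rintro a b ⟨h1, h2, h3⟩
    exact ⟨h1, h2, h3.imp id (fun h => h.1)⟩
  obtain ⟨n, q, h0, hn, hs, hi⟩ := exists_simple hzt
  have hn0 : 1 ≤ n := by
    rcases Nat.eq_zero_or_pos n with h1 | h1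
    · exfalso
      apply h.xT
      rw [← h0, ← h1, hn]; exact ht
    · exact h1
  refine ⟨t, ht, n, q, hn0, h0, hn, fun j hj => ⟨fun _ => (hs j hj).2.1, by simp⟩, ?_, ?_⟩
  · intro j h1 h2
    have hT : q j ∉ T := (hs j h2).1
    obtain ⟨i, rfl⟩ : ∃ i, j = i + 1 := ⟨j - 1, by omega⟩
    rcases (hs i (by omega)).2.2 with h3 | h3
    · exact absurd h3 hT
    · exact ⟨h3, hT⟩
  · intro i j h1 h2 he
    exact hi i j h1.le h2.le he

/-- Removing the current vertex from the region: the construction goes one step backwards. -/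
lemma IS.step {A X : Finset V} {u : V} {j d : ℕ} (h : IS adj T A X u j (d + 1))
    (hd : j ≤ d) : ∃ u1, adj u1 u ∧ u1 ∈ A.erase u ∧ u1 ∉ T ∧
      ∃ X', IS adj T (A.erase u) X' u1 j d := by
  -- the family of candidate regions
  set F : Finset (Finset V) := (X.erase u).powerset.filter
    (fun Y => Y.Nonempty ∧ (nb adj (A.erase u) Y).card ≤ j) with hF
  have hFne : F.Nonempty := by
    refine ⟨X.erase u, ?_⟩
    rw [hF, Finset.mem_filter, Finset.mem_powerset]
    refine ⟨Finset.Subset.refl _, ?_, ?_⟩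
    · have h1 := h.deg u h.mem
      have h2 := h.card
      obtain ⟨v, hvX, hvu, huv⟩ := exists_inner (adj := adj) (A := A) h.mem (by omega)
      exact ⟨v, Finset.mem_erase.mpr ⟨hvu, hvX⟩⟩
    · rw [← h.card]
      apply Finset.card_le_card
      intro v hv
      rw [mem_nb] at hv ⊢
      obtain ⟨h1, h2, w, hw, hwv⟩ := hv
      rw [Finset.mem_erase] at h1
      refine ⟨h1.2, ?_, w, Finset.mem_of_mem_erase hw, hwv⟩
      intro hvX
      exact h2 (Finset.mem_erase.mpr ⟨h1.1, hvX⟩)
  obtain ⟨X', hX'F, hmin⟩ := Finset.exists_min_image F Finset.card hFne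
  rw [hF, Finset.mem_filter, Finset.mem_powerset] at hX'F
  obtain ⟨hX'sub, hX'ne, hX'card⟩ := hX'F
  have hX'X : X' ⊆ X := hX'sub.trans (Finset.erase_subset _ _)
  have huX' : u ∉ X' := fun hu => absurd (hX'sub hu) (by simp)
  have hprop : ∀ Y, Y ⊆ X.erase u → Y.Nonempty → j ≤ (nb adj (A.erase u) Y).card := by
    intro Y hY hne
    have h1 := h.atom Y (hY.trans (Finset.erase_subset _ _)) hne (by
      rintro rfl
      exact absurd (hY h.mem) (by simp))
    have h2 := nb_erase_card (adj := adj) A Y u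
    omega
  have hcard : (nb adj (A.erase u) X').card = j := le_antisymm hX'card (hprop X' hX'sub hX'ne)
  -- `u` is an out-neighbour of `X'`
  obtain ⟨u1, hu1, hu1u⟩ : ∃ u1 ∈ X', adj u1 u := by
    by_contra hcon
    push Not at hcon
    have h1 := h.atom X' hX'X hX'ne (by rintro rfl; exact huX' h.mem)
    have hsub : nb adj A X' ⊆ nb adj (A.erase u) X' := by
      intro v hv
      rw [mem_nb] at hv ⊢
      obtain ⟨g1, g2, w, hw, hwv⟩ := hv
      refine ⟨Finset.mem_erase.mpr ⟨?_, g1⟩, g2, w, hw, hwv⟩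
      rintro rfl
      exact hcon w hw hwv
    have h2 := Finset.card_le_card hsub
    omega
  refine ⟨u1, hu1u, ?_, h.disj u1 (hX'X hu1), X', ?_, hu1, hcard, ?_, ?_, ?_, ?_⟩
  · exact Finset.mem_erase.mpr ⟨by rintro rfl; exact huX' hu1, h.sub (hX'X hu1)⟩
  · intro v hv
    exact Finset.mem_erase.mpr ⟨by rintro rfl; exact huX' hv, h.sub (hX'X hv)⟩
  · intro Y hY hne hYX
    by_contra hlt
    have hYF : Y ∈ F := by
      rw [hF, Finset.mem_filter, Finset.mem_powerset]
      exact ⟨hY.trans hX'sub, hne, by omega⟩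
    have h1 := hmin Y hYF
    exact hYX (Finset.eq_of_subset_of_card_le hY h1)
  · -- the exits of `X'` are good
    intro e he
    by_cases heX : e ∈ X
    · -- reach an exit of `X`
      have he' := mem_nb.mp he
      set C : Finset V := X \ (insert u X') with hC
      have heC : e ∈ C := by
        rw [hC, Finset.mem_sdiff, Finset.mem_insert, not_or]
        exact ⟨heX, (Finset.mem_erase.mp he'.1).1, he'.2.1⟩
      set R := rset adj C e with hR
      have heR : e ∈ R := by rw [hR, mem_rset]; exact ⟨heC, ReflTransGen.refl⟩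
      have hRC : R ⊆ C := rset_sub C e
      have hY : X' ∪ R ⊆ X.erase u := by
        intro v hv
        rcases Finset.mem_union.mp hv with h1 | h1
        · exact hX'sub h1
        · have h2 := hRC h1
          rw [hC, Finset.mem_sdiff, Finset.mem_insert, not_or] at h2
          exact Finset.mem_erase.mpr ⟨h2.2.1, h2.1⟩
      have hYc := hprop (X' ∪ R) hY (hX'ne.mono Finset.subset_union_left)
      -- otherwise the union has too few exits
      obtain ⟨r, hr, w, hwA, hwX, hrw⟩ : ∃ r ∈ R, ∃ w, w ∈ A ∧ w ∉ X ∧ adj r w := by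
        by_contra hcon
        push Not at hcon
        have hsub : nb adj (A.erase u) (X' ∪ R) ⊆ (nb adj (A.erase u) X').erase e := by
          intro v hv
          rw [mem_nb] at hv
          obtain ⟨g1, g2, w, hw, hwv⟩ := hv
          rw [Finset.mem_union, not_or] at g2
          have hve : v ≠ e := by rintro rfl; exact g2.2 heR
          refine Finset.mem_erase.mpr ⟨hve, ?_⟩
          rw [mem_nb]
          refine ⟨g1, g2.1, ?_⟩
          rcases Finset.mem_union.mp hw with h1 | h1
          · exact ⟨w, h1, hwv⟩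
          · exfalso
            have hvX : v ∈ X := by
              by_contra hvX
              exact hcon w h1 v (Finset.mem_of_mem_erase g1) hvX hwv
            have hvC : v ∈ C := by
              rw [hC, Finset.mem_sdiff, Finset.mem_insert, not_or]
              exact ⟨hvX, (Finset.mem_erase.mp g1).1, g2.1⟩
            exact g2.2 (rset_closed h1 hwv hvC)
        have h1 := Finset.card_le_card hsub
        rw [Finset.card_erase_of_mem he] at h1
        have h2 : 0 < (nb adj (A.erase u) X').card := Finset.card_pos.mpr ⟨e, he⟩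
        omega
      have hwnb : w ∈ nb adj A X := by
        rw [mem_nb]
        have := hRC hr
        rw [hC, Finset.mem_sdiff] at this
        exact ⟨hwA, hwX, r, this.1, hrw⟩
      obtain ⟨t, ht, hp⟩ := h.good w hwnb
      refine ⟨t, ht, ?_⟩
      have gen : ∀ v, ReflTransGen (fun a b => adj a b ∧ b ∈ C) e v →
          v ∈ C ∧ ReflTransGen (fun a b => a ∉ T ∧ adj a b ∧
            (b ∈ T ∨ (b ∈ A.erase u ∧ b ∉ X'))) e v := by
        intro v hv
        induction hv with
        | refl => exact ⟨heC, ReflTransGen.refl⟩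
        | tail _ hbc ih =>
          refine ⟨hbc.2, ih.2.tail ⟨?_, hbc.1, Or.inr ?_⟩⟩
          · have := ih.1
            rw [hC, Finset.mem_sdiff] at this
            exact h.disj _ this.1
          · have := hbc.2
            rw [hC, Finset.mem_sdiff, Finset.mem_insert, not_or] at this
            exact ⟨Finset.mem_erase.mpr ⟨this.2.1, h.sub this.1⟩, this.2.2⟩
      have hrC := hRC hr
      have h1 := (gen r (mem_rset.mp hr).2).2
      have hwu : w ≠ u := by rintro rfl; exact hwX h.mem
      refine (h1.tail ⟨?_, hrw, Or.inr ⟨Finset.mem_erase.mpr ⟨hwu, hwA⟩,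
        fun hh => hwX (hX'X hh)⟩⟩).trans (rtg_mono hp ?_)
      · rw [hC, Finset.mem_sdiff] at hrC
        exact h.disj _ hrC.1
      · rintro a b ⟨g1, g2, g3⟩
        refine ⟨g1, g2, g3.imp id (fun g => ⟨Finset.mem_erase.mpr ⟨?_, g.1⟩,
          fun hh => g.2 (hX'X hh)⟩)⟩
        rintro rfl
        exact g.2 h.mem
    · have he' := mem_nb.mp he
      have henb : e ∈ nb adj A X := by
        rw [mem_nb]
        obtain ⟨g1, g2, w, hw, hwv⟩ := he'
        exact ⟨Finset.mem_of_mem_erase g1, heX, w, hX'X hw, hwv⟩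
      refine (h.good e henb).mono ?_
      intro v hvA hvX
      refine ⟨Finset.mem_erase.mpr ⟨?_, hvA⟩, fun hh => hvX (hX'X hh)⟩
      rintro rfl
      exact hvX h.mem
  · intro x hx
    have h1 := h.deg x (hX'X hx)
    have h2 := outA_erase_card (adj := adj) A x u
    omega
  · intro x hx
    exact h.disj x (hX'X hx)

end Pool.Agent.J6H69.Mader
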